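import Pool.Agent.H32.Dense.Defs

/-!
# Time lemmas for random lines with random times

Two inequalities between the information `Kf`, the logarithmic energy `Gf` and the mean
logarithm of the ratio of distances `Df` of a random time.
-/

set_option autoImplicit false

namespace Pool.Agent.H55.Dense

open Finset Real
open Pool.Agent.H49.Ent
open Pool.Agent.H32.Dense

/-! ### The energy bound -/

lemma sum_rpow_neg_le {θ : ℝ} (h0 : 0 < θ) (h1 : θ < 1) (n : ℕ) :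
    ∑ i ∈ Finset.Icc 1 n, (i : ℝ) ^ (-θ) ≤ (n : ℝ) ^ (1 - θ) / (1 - θ) := by
  have h2 : 0 < 1 - θ := by linarith
  induction n with
  | zero => simp [Real.zero_rpow h2.ne']
  | succ n ih =>
    rw [Finset.sum_Icc_succ_top (by omega)]
    have hn : (0 : ℝ) < (n : ℝ) + 1 := by positivity
    have hb : (n : ℝ) ^ (1 - θ) ≤ ((n : ℝ) + 1) ^ (1 - θ) * (1 - (1 - θ) / ((n : ℝ) + 1)) := by
      have e : (n : ℝ) = ((n : ℝ) + 1) * (1 + (-(1 / ((n : ℝ) + 1)))) := by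
        field_simp; ring
      have hs : -1 ≤ -(1 / ((n : ℝ) + 1)) := by
        rw [neg_le_neg_iff, div_le_one hn]; linarith [Nat.cast_nonneg (α := ℝ) n]
      have h3 := rpow_one_add_le_one_add_mul_self hs h2.le (by linarith : 1 - θ ≤ 1)
      calc (n : ℝ) ^ (1 - θ) = (((n : ℝ) + 1) * (1 + (-(1 / ((n : ℝ) + 1))))) ^ (1 - θ) := by
            rw [← e]
        _ = ((n : ℝ) + 1) ^ (1 - θ) * (1 + (-(1 / ((n : ℝ) + 1)))) ^ (1 - θ) :=
            Real.mul_rpow hn.le (by linarith)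
        _ ≤ ((n : ℝ) + 1) ^ (1 - θ) * (1 - (1 - θ) / ((n : ℝ) + 1)) := by
            refine mul_le_mul_of_nonneg_left (h3.trans (le_of_eq ?_)) (by positivity)
            ring
    have hc : ((n : ℝ) + 1) ^ (-θ) = ((n : ℝ) + 1) ^ (1 - θ) / ((n : ℝ) + 1) := by
      rw [show -θ = (1 - θ) - 1 by ring, Real.rpow_sub hn, Real.rpow_one]
    push_cast
    rw [hc]
    have hd : (n : ℝ) ^ (1 - θ) / (1 - θ) ≤
        ((n : ℝ) + 1) ^ (1 - θ) / (1 - θ) - ((n : ℝ) + 1) ^ (1 - θ) / ((n : ℝ) + 1) := by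
      rw [div_le_iff₀ h2]
      refine hb.trans (le_of_eq ?_)
      field_simp
    linarith

lemma sum_kernel_le {θ : ℝ} (h0 : 0 < θ) (h1 : θ < 1) {M : ℕ} (hM : 0 < M) (y : ℤ)
    (hy0 : 0 ≤ y) (hyM : y < M) :
    ∑ x ∈ Finset.Ico (0 : ℤ) M, ((M : ℝ) / max |(x : ℝ) - y| 1) ^ θ ≤ 3 * M / (1 - θ) := by
  classical
  have h2 : 0 < 1 - θ := by linarith
  have hM' : (1 : ℝ) ≤ M := by exact_mod_cast hM
  set g : ℕ → ℝ := fun i => ((M : ℝ) / max (i : ℝ) 1) ^ θ with hg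
  have hgn : ∀ i, 0 ≤ g i := fun i => by simp only [hg]; positivity
  have e0 : ∀ x : ℤ, ((M : ℝ) / max |(x : ℝ) - y| 1) ^ θ = g (x - y).natAbs := by
    intro x
    simp only [hg]
    have : |(x : ℝ) - y| = (((x - y).natAbs : ℕ) : ℝ) := by
      rw [Nat.cast_natAbs]; push_cast; rfl
    rw [this]
  simp_rw [e0]
  have hymem : y ∈ Finset.Ico (0 : ℤ) M := Finset.mem_Ico.mpr ⟨hy0, hyM⟩
  rw [← Finset.add_sum_erase _ _ hymem]
  have hy' : g (y - y).natAbs ≤ M / (1 - θ) := by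
    simp only [hg, sub_self, Int.natAbs_zero, Nat.cast_zero]
    rw [max_eq_right (by norm_num : (0 : ℝ) ≤ 1), div_one]
    calc (M : ℝ) ^ θ ≤ (M : ℝ) ^ (1 : ℝ) := Real.rpow_le_rpow_of_exponent_le hM' h1.le
      _ = M := Real.rpow_one _
      _ ≤ M / (1 - θ) := by rw [le_div_iff₀ h2]; nlinarith
  have hmaps : ∀ x ∈ (Finset.Ico (0 : ℤ) M).erase y, (x - y).natAbs ∈ Finset.Icc 1 (M - 1) := by
    intro x hx
    have h3 := Finset.mem_erase.mp hx
    have h4 := Finset.mem_Ico.mp h3.2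
    have h5 := h3.1
    rw [Finset.mem_Icc]
    omega
  have hfib : ∑ x ∈ (Finset.Ico (0 : ℤ) M).erase y, g (x - y).natAbs ≤
      ∑ i ∈ Finset.Icc 1 (M - 1), 2 * g i := by
    rw [← Finset.sum_fiberwise_of_maps_to hmaps]
    refine Finset.sum_le_sum fun i _ => ?_
    have h6 : ∀ x ∈ ((Finset.Ico (0 : ℤ) M).erase y).filter (fun x => (x - y).natAbs = i),
        g (x - y).natAbs = g i := by
      intro x hx
      rw [(Finset.mem_filter.mp hx).2]
    rw [Finset.sum_congr rfl h6, Finset.sum_const, nsmul_eq_mul]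
    refine mul_le_mul_of_nonneg_right ?_ (hgn i)
    have h7 : ((Finset.Ico (0 : ℤ) M).erase y).filter (fun x => (x - y).natAbs = i) ⊆
        {y + i, y - i} := by
      intro x hx
      have h8 := (Finset.mem_filter.mp hx).2
      rw [Finset.mem_insert, Finset.mem_singleton]
      omega
    have h9 := (Finset.card_le_card h7).trans (Finset.card_le_two)
    exact_mod_cast h9
  have hsum : ∑ i ∈ Finset.Icc 1 (M - 1), 2 * g i ≤ 2 * (M / (1 - θ)) := by
    rw [← Finset.mul_sum]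
    refine mul_le_mul_of_nonneg_left ?_ (by norm_num)
    have e1 : ∀ i ∈ Finset.Icc 1 (M - 1), g i = (M : ℝ) ^ θ * (i : ℝ) ^ (-θ) := by
      intro i hi
      have h10 : (1 : ℝ) ≤ i := by exact_mod_cast (Finset.mem_Icc.mp hi).1
      simp only [hg]
      rw [max_eq_left h10, Real.div_rpow (by positivity) (by positivity),
        Real.rpow_neg (by positivity)]
      rfl
    rw [Finset.sum_congr rfl e1, ← Finset.mul_sum]
    calc (M : ℝ) ^ θ * ∑ i ∈ Finset.Icc 1 (M - 1), (i : ℝ) ^ (-θ)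
        ≤ (M : ℝ) ^ θ * (((M - 1 : ℕ) : ℝ) ^ (1 - θ) / (1 - θ)) :=
          mul_le_mul_of_nonneg_left (sum_rpow_neg_le h0 h1 _) (by positivity)
      _ ≤ (M : ℝ) ^ θ * ((M : ℝ) ^ (1 - θ) / (1 - θ)) := by
          refine mul_le_mul_of_nonneg_left ?_ (by positivity)
          refine div_le_div_of_nonneg_right ?_ h2.le
          refine Real.rpow_le_rpow (by positivity) ?_ h2.le
          exact_mod_cast Nat.sub_le M 1
      _ = M / (1 - θ) := by
          rw [← mul_div_assoc, ← Real.rpow_add (by linarith)]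
          norm_num
  have : 3 * (M : ℝ) / (1 - θ) = M / (1 - θ) + 2 * (M / (1 - θ)) := by ring
  rw [this]
  linarith [hfib.trans hsum]

lemma CH_dbl {Ω β : Type*} [Fintype Ω] {p : Ω → ℝ} (hp : ∀ ω, 0 ≤ p ω)
    (b : Ω → β) (τ : Ω → ℤ) :
    CH (dbl p b) (fun w => τ w.1) (fun w => (b w.1, τ w.2)) = CH p τ b := by
  have hq : ∀ w, 0 ≤ dbl p b w := fun w => glue_nonneg hp hp w
  have h1 := H_glue_pair (p₁ := p) (p₂ := p) (Z₁ := b) (Z₂ := b) hp hp (fun _ => rfl)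
    (X := fun ω => (τ ω, b ω)) (Y := fun ω => (τ ω, b ω))
    (fun _ _ _ _ h => (Prod.ext_iff.mp h).2) (fun _ _ _ _ h => (Prod.ext_iff.mp h).2)
  have h2 := H_glue_snd (p₁ := p) (p₂ := p) (Z₁ := b) (Z₂ := b) hp (fun _ => rfl)
    (X := fun ω => (τ ω, b ω))
  have hb : ∀ w, 0 < dbl p b w → b w.1 = b w.2 := fun w hw =>
    ((glue_pos_iff hp hp w).mp hw).2.2
  have e1 : H (dbl p b) (fun w => (τ w.1, (b w.1, τ w.2))) =
      H (dbl p b) (fun w => ((τ w.1, b w.1), (τ w.2, b w.2))) := by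
    refine H_congr hq ?_ ?_
    · intro w w' _ _ h
      simp only [Prod.mk.injEq] at h ⊢
      tauto
    · intro w w' a c h
      have h3 := hb w a
      have h4 := hb w' c
      simp only [Prod.mk.injEq] at h ⊢
      refine ⟨⟨h.1, h.2.1⟩, h.2.2, ?_⟩
      rw [← h3, ← h4]; exact h.2.1
  have e2 : H (dbl p b) (fun w => (b w.1, τ w.2)) = H (dbl p b) (fun w => (τ w.2, b w.2)) := by
    refine H_congr hq ?_ ?_
    · intro w w' a c h
      have h3 := hb w a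
      have h4 := hb w' c
      simp only [Prod.mk.injEq] at h ⊢
      refine ⟨?_, h.1⟩
      rw [h3, h4]; exact h.2
    · intro w w' a c h
      have h3 := hb w a
      have h4 := hb w' c
      simp only [Prod.mk.injEq] at h ⊢
      refine ⟨h.2, ?_⟩
      rw [← h3, ← h4]; exact h.1
  unfold CH
  rw [e1, e2]
  unfold dbl at *
  rw [h1, h2]
  ring

theorem Gf_le {Ω β : Type*} [Fintype Ω] {M : ℕ} (hM : 0 < M) {p : Ω → ℝ} (hp : ∀ ω, 0 ≤ p ω)
    (h1 : ∑ ω, p ω = 1) (b : Ω → β) (τ : Ω → ℤ) (hτ : ∀ ω, 0 < p ω → 0 ≤ τ ω ∧ τ ω < M)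
    {θ : ℝ} (h0 : 0 < θ) (h1' : θ < 1) :
    Gf M p b τ ≤ (1 / θ) * (Kf M p b τ + Real.log (3 / (1 - θ))) := by
  classical
  have h2 : 0 < 1 - θ := by linarith
  have hM' : (0 : ℝ) < M := by exact_mod_cast hM
  have hq : ∀ w, 0 ≤ dbl p b w := fun w => glue_nonneg hp hp w
  have hq1 : ∑ w, dbl p b w = 1 := by
    unfold dbl; rw [sum_glue hp (fun _ => rfl), h1]
  have hpos : ∀ w, 0 < dbl p b w → 0 < p w.1 ∧ 0 < p w.2 := fun w hw =>
    ⟨((glue_pos_iff hp hp w).mp hw).1, ((glue_pos_iff hp hp w).mp hw).2.1⟩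
  set q : β × ℤ → ℤ → ℝ := fun z j =>
    if 0 ≤ j ∧ j < M then (1 - θ) / (3 * M) * ((M : ℝ) / max |(j : ℝ) - z.2| 1) ^ θ else 0
    with hqdef
  have hcross := CH_le_cross hq hq1 (fun w => τ w.1) (fun w => (b w.1, τ w.2)) q
    (by
      intro w hw
      have h3 := hτ _ (hpos w hw).1
      simp only [hqdef]
      rw [if_pos h3]
      positivity)
    (by
      intro z j
      simp only [hqdef]
      split_ifs
      · positivity
      · exact le_rfl)
    (by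
      intro w hw F
      have h3 := hτ _ (hpos w hw).2
      simp only [hqdef]
      have h4 : ∑ x ∈ F, (if 0 ≤ x ∧ x < (M : ℤ) then
          (1 - θ) / (3 * M) * ((M : ℝ) / max |(x : ℝ) - τ w.2| 1) ^ θ else 0) ≤
          ∑ x ∈ Finset.Ico (0 : ℤ) M,
            (1 - θ) / (3 * M) * ((M : ℝ) / max |(x : ℝ) - τ w.2| 1) ^ θ := by
        rw [← Finset.sum_filter]
        refine Finset.sum_le_sum_of_subset_of_nonneg ?_ (fun _ _ _ => by positivity)
        intro x hx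
        exact Finset.mem_Ico.mpr (Finset.mem_filter.mp hx).2
      refine h4.trans ?_
      rw [← Finset.mul_sum]
      have h5 := sum_kernel_le h0 h1' hM (τ w.2) h3.1 h3.2
      calc (1 - θ) / (3 * M) * ∑ x ∈ Finset.Ico (0 : ℤ) M,
            ((M : ℝ) / max |(x : ℝ) - τ w.2| 1) ^ θ
          ≤ (1 - θ) / (3 * M) * (3 * M / (1 - θ)) :=
            mul_le_mul_of_nonneg_left h5 (by positivity)
        _ = 1 := by field_simp)
  rw [CH_dbl hp] at hcross
  have h6 : Ex (dbl p b) (fun w => -Real.log (q (b w.1, τ w.2) (τ w.1))) ≤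
      Ex (dbl p b) (fun w => (Real.log (3 / (1 - θ)) + Real.log M) -
        θ * ell M (τ w.1) (τ w.2)) := by
    refine Ex_mono hq fun w hw => ?_
    have h3 := hτ _ (hpos w hw).1
    simp only [hqdef]
    rw [if_pos h3]
    unfold ell
    have hmx : (0 : ℝ) < max |(τ w.1 : ℝ) - τ w.2| 1 := by positivity
    rw [Real.log_mul (by positivity) (by positivity), Real.log_rpow (by positivity),
      Real.log_div h2.ne' (by positivity), Real.log_mul (by norm_num) hM'.ne',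
      Real.log_div (by norm_num : (3 : ℝ) ≠ 0) h2.ne']
    linarith
  rw [Ex_sub, Ex_const hq1, Ex_smul] at h6
  have h7 : Ex (dbl p b) (fun w => ell M (τ w.1) (τ w.2)) = Gf M p b τ := rfl
  rw [h7] at h6
  have h8 : θ * Gf M p b τ ≤ Kf M p b τ + Real.log (3 / (1 - θ)) := by
    unfold Kf
    linarith
  rw [one_div, inv_mul_eq_div, le_div_iff₀ h0]
  linarith

/-! ### The Markov kernel of the conditionally independent copy -/

section Kernel

variable {Ω : Type*} [Fintype Ω] {β : Type*}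

open Classical in
/-- Conditional probability of `ω'` given `b = b ω`. -/
noncomputable def ker (p : Ω → ℝ) (b : Ω → β) (ω ω' : Ω) : ℝ :=
  (if b ω' = b ω then p ω' else 0) / law p b (b ω)

lemma ker_nonneg {p : Ω → ℝ} (hp : ∀ ω, 0 ≤ p ω) (b : Ω → β) (ω ω' : Ω) :
    0 ≤ ker p b ω ω' := by
  unfold ker
  have := law_nonneg hp b (b ω)
  split_ifs
  · exact div_nonneg (hp _) this
  · simp

lemma sum_ker {p : Ω → ℝ} (hp : ∀ ω, 0 ≤ p ω) (b : Ω → β) {ω : Ω} (hω : 0 < p ω) :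
    ∑ ω', ker p b ω ω' = 1 := by
  unfold ker
  rw [← Finset.sum_div]
  have h := law_pos hp b hω
  have e : ∑ ω', (open Classical in if b ω' = b ω then p ω' else 0) = law p b (b ω) := by
    unfold law
    exact Finset.sum_congr rfl fun _ _ => by congr
  rw [e, div_self h.ne']

lemma Ex_dbl (p : Ω → ℝ) (b : Ω → β) (f : Ω → Ω → ℝ) :
    Ex (dbl p b) (fun w => f w.1 w.2) = Ex p (fun ω => ∑ ω', ker p b ω ω' * f ω' ω) := by
  classical
  unfold Ex dbl
  rw [Fintype.sum_prod_type, Finset.sum_comm]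
  refine Finset.sum_congr rfl fun ω _ => ?_
  rw [Finset.mul_sum]
  refine Finset.sum_congr rfl fun ω' _ => ?_
  unfold glue ker
  dsimp only
  by_cases h : b ω' = b ω
  · rw [if_pos h, if_pos h, h]; ring
  · rw [if_neg h, if_neg h]; ring

lemma Ex_tri {p : Ω → ℝ} (hp : ∀ ω, 0 ≤ p ω) (b : Ω → β) (f : Ω → Ω → Ω → ℝ) :
    Ex (tri p b) (fun w => f w.1.1 w.1.2 w.2) =
      Ex p (fun ω => ∑ ω₁, ∑ ω₂, ker p b ω ω₁ * ker p b ω ω₂ * f ω₁ ω₂ ω) := by
  classical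
  unfold Ex tri
  rw [Fintype.sum_prod_type, Finset.sum_comm]
  refine Finset.sum_congr rfl fun ω _ => ?_
  rw [Fintype.sum_prod_type, Finset.mul_sum]
  refine Finset.sum_congr rfl fun ω₁ _ => ?_
  rw [Finset.mul_sum]
  refine Finset.sum_congr rfl fun ω₂ _ => ?_
  unfold glue ker
  dsimp only
  have e : law (dbl p b) (fun w => b w.1) (b ω₁) = law p b (b ω₁) :=
    law_glue_fst hp (fun _ => rfl) b (b ω₁)
  rw [e]
  unfold dbl glue
  dsimp only
  by_cases h : b ω₁ = b ω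
  · by_cases h' : b ω₂ = b ω
    · rw [if_pos h, if_pos (h.trans h'.symm), if_pos h, if_pos h', h]; ring
    · rw [if_pos h, if_neg (fun h'' => h' (h''.symm.trans h)), if_neg h']; ring
  · rw [if_neg h, if_neg h]; ring

end Kernel

/-! ### Counting dyadic scales -/

lemma exists_div_lt (M : ℕ) {D : ℝ} (hD : 1 ≤ D) : ∃ k : ℕ, (M : ℝ) / 2 ^ k < D := by
  obtain ⟨k, hk⟩ := pow_unbounded_of_one_lt (M : ℝ) (by norm_num : (1 : ℝ) < 2)
  refine ⟨k, ?_⟩
  rw [div_lt_iff₀ (by positivity)]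
  calc (M : ℝ) < 2 ^ k := hk
    _ = 1 * 2 ^ k := by ring
    _ ≤ D * 2 ^ k := mul_le_mul_of_nonneg_right hD (by positivity)

/-- The number of dyadic scales between `D₂` and `D₁`. -/
lemma log_le_count {M : ℕ} {D₁ D₂ : ℝ} (h2 : 1 ≤ D₂) (h12 : D₂ ≤ D₁) (h1M : D₁ ≤ M) :
    Real.log (D₁ / D₂) ≤ Real.log 2 * (1 + ((((Finset.Icc 1 (Nat.log 2 M)).filter
      (fun k : ℕ => D₂ ≤ (M : ℝ) / 2 ^ k ∧ (M : ℝ) / 2 ^ k < D₁)).card : ℕ) : ℝ)) := by
  classical
  set S := (Finset.Icc 1 (Nat.log 2 M)).filter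
      (fun k : ℕ => D₂ ≤ (M : ℝ) / 2 ^ k ∧ (M : ℝ) / 2 ^ k < D₁) with hS
  have hM1 : (1 : ℝ) ≤ M := h2.trans (h12.trans h1M)
  have hM0 : (0 : ℝ) < M := by linarith
  have ha := exists_div_lt M (h2.trans h12)
  have hb := exists_div_lt M h2
  set i := Nat.find ha with hi
  set j := Nat.find hb with hj
  have hi1 : (M : ℝ) / 2 ^ i < D₁ := Nat.find_spec ha
  have hj1 : (M : ℝ) / 2 ^ j < D₂ := Nat.find_spec hb
  have hi2 : ∀ k, k < i → D₁ ≤ (M : ℝ) / 2 ^ k := fun k hk => not_lt.mp (Nat.find_min ha hk)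
  have hj2 : ∀ k, k < j → D₂ ≤ (M : ℝ) / 2 ^ k := fun k hk => not_lt.mp (Nat.find_min hb hk)
  have hi0 : 1 ≤ i := by
    by_contra h
    have h0 : i = 0 := by omega
    rw [h0, pow_zero, div_one] at hi1
    linarith
  have hsub : Finset.Ico i j ⊆ S := by
    intro k hk
    obtain ⟨hk1, hk2⟩ := Finset.mem_Ico.mp hk
    have h3 := hj2 k hk2
    have h4 : (M : ℝ) / 2 ^ k < D₁ := by
      refine lt_of_le_of_lt ?_ hi1
      exact div_le_div_of_nonneg_left hM0.le (by positivity)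
        (pow_le_pow_right₀ (by norm_num) hk1)
    rw [hS, Finset.mem_filter, Finset.mem_Icc]
    refine ⟨⟨hi0.trans hk1, ?_⟩, h3, h4⟩
    have h5 : (2 : ℝ) ^ k ≤ M := by
      have := (le_div_iff₀ (by positivity : (0 : ℝ) < 2 ^ k)).mp (h2.trans h3)
      linarith
    have h6 : 2 ^ k ≤ M := by exact_mod_cast h5
    exact Nat.le_log_of_pow_le (by norm_num) h6
  have hcard : j - i ≤ S.card := by
    have := Finset.card_le_card hsub
    rwa [Nat.card_Ico] at this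
  have hD1 : D₁ ≤ (M : ℝ) / 2 ^ (i - 1) := hi2 _ (by omega)
  have hlt : D₁ / D₂ ≤ 2 ^ (1 + S.card) := by
    rw [div_le_iff₀ (by linarith)]
    have h7 : (M : ℝ) < D₂ * 2 ^ j := (div_lt_iff₀ (by positivity)).mp hj1
    have h8 : D₁ * 2 ^ (i - 1) ≤ M := (le_div_iff₀ (by positivity)).mp hD1
    have h9 : D₁ * 2 ^ (i - 1) ≤ D₂ * 2 ^ j := h8.trans h7.le
    have h10 : (2 : ℝ) ^ j ≤ 2 ^ (1 + S.card) * 2 ^ (i - 1) := by
      rw [← pow_add]
      exact pow_le_pow_right₀ (by norm_num) (by omega)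
    have h11 : D₁ * 2 ^ (i - 1) ≤ (2 ^ (1 + S.card) * D₂) * 2 ^ (i - 1) := by
      calc D₁ * 2 ^ (i - 1) ≤ D₂ * 2 ^ j := h9
        _ ≤ D₂ * (2 ^ (1 + S.card) * 2 ^ (i - 1)) :=
            mul_le_mul_of_nonneg_left h10 (by linarith)
        _ = (2 ^ (1 + S.card) * D₂) * 2 ^ (i - 1) := by ring
    exact le_of_mul_le_mul_right h11 (by positivity)
  calc Real.log (D₁ / D₂) ≤ Real.log (2 ^ (1 + S.card)) :=
        Real.log_le_log (div_pos (by linarith) (by linarith)) hlt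
    _ = Real.log 2 * (1 + (S.card : ℝ)) := by
        rw [Real.log_pow]; push_cast; ring

/-- Indicator of `|x - y| ≤ M / 2 ^ k`. -/
noncomputable def near (M : ℕ) (x y : ℤ) (k : ℕ) : ℝ :=
  if |(x : ℝ) - y| ≤ (M : ℝ) / 2 ^ k then 1 else 0

lemma near_nonneg (M : ℕ) (x y : ℤ) (k : ℕ) : 0 ≤ near M x y k := by
  unfold near; split_ifs <;> norm_num

lemma near_le_one (M : ℕ) (x y : ℤ) (k : ℕ) : near M x y k ≤ 1 := by
  unfold near; split_ifs <;> norm_num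

lemma dist_le {M : ℕ} {x y : ℤ} (hx : 0 ≤ x ∧ x < M) (hy : 0 ≤ y ∧ y < M) :
    max |(x : ℝ) - y| 1 ≤ M := by
  have h1 : (0 : ℝ) ≤ x := by exact_mod_cast hx.1
  have h2 : (0 : ℝ) ≤ y := by exact_mod_cast hy.1
  have h3 : (x : ℝ) < M := by exact_mod_cast hx.2
  have h4 : (y : ℝ) < M := by exact_mod_cast hy.2
  have h5 : 0 < M := by
    have : (0 : ℤ) < M := lt_of_le_of_lt hx.1 hx.2
    exact_mod_cast this
  have h6 : (1 : ℝ) ≤ M := by exact_mod_cast h5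
  refine max_le ?_ h6
  rw [abs_le]; constructor <;> linarith

lemma ell_le {M : ℕ} {x y : ℤ} (hx : 0 ≤ x ∧ x < M) (hy : 0 ≤ y ∧ y < M) :
    ell M x y ≤ Real.log 2 * (1 + ∑ k ∈ Finset.Icc 1 (Nat.log 2 M), near M x y k) := by
  unfold ell
  refine (log_le_count (le_max_right _ _) (dist_le hx hy) le_rfl).trans ?_
  refine mul_le_mul_of_nonneg_left ?_ (Real.log_nonneg (by norm_num))
  rw [Finset.card_filter]
  push_cast
  refine add_le_add le_rfl (Finset.sum_le_sum fun k _ => ?_)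
  unfold near
  split_ifs with h1 h2
  · exact le_rfl
  · exact absurd ((le_max_left _ _).trans h1.1) h2
  · norm_num
  · exact le_rfl

lemma kap_le (t s τ : ℤ) :
    |kap t s τ| ≤ 9 * (max |(s : ℝ) - τ| 1 / max |(t : ℝ) - τ| 1) := by
  have hne : hat t s τ ≠ t := by
    unfold hat
    split_ifs <;> omega
  have hr : τ ≤ hat t s τ ∧ hat t s τ ≤ τ + 2 := by
    unfold hat
    split_ifs <;> omega
  have h0 : (τ : ℝ) ≤ hat t s τ := by exact_mod_cast hr.1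
  have h1 : (hat t s τ : ℝ) ≤ τ + 2 := by exact_mod_cast hr.2
  have h2 : (1 : ℝ) ≤ |(hat t s τ : ℝ) - t| := by
    have : 1 ≤ |hat t s τ - t| := Int.one_le_abs (by omega)
    exact_mod_cast this
  have hs : |(hat t s τ : ℝ) - s| ≤ 3 * max |(s : ℝ) - τ| 1 := by
    have a1 := le_max_left |(s : ℝ) - τ| 1
    have a2 := le_max_right |(s : ℝ) - τ| 1
    have a3 := abs_le.mp (le_refl |(s : ℝ) - τ|)
    rw [abs_le]; constructor <;> linarith
  have ht : max |(t : ℝ) - τ| 1 ≤ 3 * |(hat t s τ : ℝ) - t| := by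
    refine max_le ?_ (by linarith)
    have a4 : |(t : ℝ) - τ| ≤ |(hat t s τ : ℝ) - t| + 2 := by
      have a5 := abs_le.mp (le_refl |(hat t s τ : ℝ) - t|)
      rw [abs_le]; constructor <;> linarith
    linarith
  have hm : (0 : ℝ) < max |(t : ℝ) - τ| 1 := by positivity
  have h3 : (0 : ℝ) < |(hat t s τ : ℝ) - t| := by linarith
  unfold kap
  rw [abs_div, div_le_iff₀ h3, ← mul_div_assoc, div_mul_eq_mul_div, le_div_iff₀ hm]
  have h4 : 0 ≤ max |(s : ℝ) - τ| 1 := by positivity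
  calc |(hat t s τ : ℝ) - s| * max |(t : ℝ) - τ| 1
      ≤ (3 * max |(s : ℝ) - τ| 1) * (3 * |(hat t s τ : ℝ) - t|) :=
        mul_le_mul hs ht hm.le (by positivity)
    _ = 9 * max |(s : ℝ) - τ| 1 * |(hat t s τ : ℝ) - t| := by ring

lemma kaplog_le {M : ℕ} {t s τ : ℤ} (ht : 0 ≤ t ∧ t < M) (hs : 0 ≤ s ∧ s < M)
    (hτ : 0 ≤ τ ∧ τ < M) :
    Real.log (1 + |kap t s τ|) ≤ Real.log 10 + Real.log 2 * (1 +
      ∑ k ∈ Finset.Icc 1 (Nat.log 2 M), near M t τ k * (1 - near M s τ k)) := by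
  have hk := kap_le t s τ
  set D₁ := max |(s : ℝ) - τ| 1 with hD1
  set D₂ := max |(t : ℝ) - τ| 1 with hD2
  have h1 : 1 ≤ D₁ := le_max_right _ _
  have h2 : 1 ≤ D₂ := le_max_right _ _
  have hl2 : 0 ≤ Real.log 2 := Real.log_nonneg (by norm_num)
  have hsum : 0 ≤ ∑ k ∈ Finset.Icc 1 (Nat.log 2 M), near M t τ k * (1 - near M s τ k) :=
    Finset.sum_nonneg fun k _ => mul_nonneg (near_nonneg _ _ _ _)
      (by linarith [near_le_one M s τ k])
  rcases le_total D₁ D₂ with h | h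
  · have h3 : D₁ / D₂ ≤ 1 := (div_le_one (by linarith)).mpr h
    have h4 : Real.log (1 + |kap t s τ|) ≤ Real.log 10 :=
      Real.log_le_log (by positivity) (by linarith)
    have : 0 ≤ Real.log 2 * (1 +
      ∑ k ∈ Finset.Icc 1 (Nat.log 2 M), near M t τ k * (1 - near M s τ k)) := by positivity
    linarith
  · have h3 : 1 ≤ D₁ / D₂ := (one_le_div (by linarith)).mpr h
    have h4 : Real.log (1 + |kap t s τ|) ≤ Real.log (10 * (D₁ / D₂)) :=
      Real.log_le_log (by positivity) (by linarith)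
    rw [Real.log_mul (by norm_num) (by positivity)] at h4
    have h5 := log_le_count (M := M) h2 h (dist_le hs hτ)
    refine h4.trans (add_le_add le_rfl (h5.trans ?_))
    refine mul_le_mul_of_nonneg_left ?_ hl2
    rw [Finset.card_filter]
    push_cast
    refine add_le_add le_rfl (Finset.sum_le_sum fun k hk => ?_)
    unfold near
    have hk1 : (1 : ℝ) ≤ (M : ℝ) / 2 ^ k := by
      rw [le_div_iff₀ (by positivity), one_mul]
      have hM : M ≠ 0 := by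
        rintro rfl
        have := ht.1.trans_lt ht.2
        simp at this
      have := (Nat.le_log_iff_pow_le (by norm_num) hM).mp (Finset.mem_Icc.mp hk).2
      exact_mod_cast this
    by_cases hc : D₂ ≤ (M : ℝ) / 2 ^ k ∧ (M : ℝ) / 2 ^ k < D₁
    · have e1 : |(t : ℝ) - τ| ≤ (M : ℝ) / 2 ^ k := (le_max_left _ _).trans hc.1
      have e2 : ¬ |(s : ℝ) - τ| ≤ (M : ℝ) / 2 ^ k := by
        intro e3
        exact absurd hc.2 (not_lt.mpr (max_le e3 hk1))
      rw [if_pos hc, if_pos e1, if_neg e2]; norm_num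
    · rw [if_neg hc]
      split_ifs <;> norm_num

/-! ### The numerical part -/

lemma geom_bound {A B r : ℝ} (hA : 0 ≤ A) (hB : 0 ≤ B) (h0 : 0 < r) (h1 : r < 1) (K m : ℕ) :
    ∑ k ∈ Finset.Icc 1 m, (if k ≤ K then A else B * r ^ (k - K)) ≤
      A * K + B * (r / (1 - r)) := by
  have h2 : 0 < 1 - r := by linarith
  have key : ∀ m : ℕ, ∑ k ∈ Finset.Icc 1 m, (if k ≤ K then A else B * r ^ (k - K)) ≤
      A * (min m K : ℕ) + B * (r / (1 - r)) * (1 - r ^ (m - K)) := by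
    intro m
    induction m with
    | zero => simp
    | succ m ih =>
      rw [Finset.sum_Icc_succ_top (by omega)]
      by_cases h : m + 1 ≤ K
      · rw [if_pos h]
        have e1 : min (m + 1) K = min m K + 1 := by omega
        have e2 : m + 1 - K = m - K := by omega
        rw [e1, e2]; push_cast
        push_cast at ih
        linarith
      · rw [if_neg h]
        have e1 : min (m + 1) K = min m K := by omega
        have e2 : m + 1 - K = (m - K) + 1 := by omega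
        rw [e1, e2]
        have e3 : B * (r / (1 - r)) * (1 - r ^ (m - K + 1)) =
            B * (r / (1 - r)) * (1 - r ^ (m - K)) + B * r ^ (m - K + 1) := by
          rw [pow_succ]; field_simp; ring
        linarith
  refine (key m).trans ?_
  have h3 : ((min m K : ℕ) : ℝ) ≤ K := by exact_mod_cast min_le_right m K
  have h4 : B * (r / (1 - r)) * (1 - r ^ (m - K)) ≤ B * (r / (1 - r)) := by
    have : 0 ≤ B * (r / (1 - r)) := by positivity
    nlinarith [pow_pos h0 (m - K)]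
  nlinarith

/-- The numerical inequality at one point. -/
lemma psi_sum_le : ∃ C : ℝ, ∀ (κ : ℝ) (m : ℕ) (F : ℕ → ℝ), -Real.log 300 ≤ κ →
    (∀ k ∈ Finset.Icc 1 m, 0 ≤ F k) →
    (∀ k ∈ Finset.Icc 1 m, F k ≤ 300 * Real.exp κ * (1.98 : ℝ)⁻¹ ^ k) →
    Real.log 2 * ∑ k ∈ Finset.Icc 1 m, (9.06 * F k - 6.06 * F k ^ 2) ≤ 3.45 * κ + C := by
  refine ⟨3.45 * Real.log 300 + Real.log 2 * (3.3864 + 9.06 * ((1.98 : ℝ)⁻¹ /
    (1 - (1.98 : ℝ)⁻¹))), ?_⟩
  intro κ m F hκ hF0 hF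
  have hl2 : 0 < Real.log 2 := Real.log_pos (by norm_num)
  have hl198 : 0 < Real.log 1.98 := Real.log_pos (by norm_num)
  have hx0 : 0 ≤ (κ + Real.log 300) / Real.log 1.98 := div_nonneg (by linarith) hl198.le
  set K := ⌈(κ + Real.log 300) / Real.log 1.98⌉₊ with hK
  have hK1 : (κ + Real.log 300) / Real.log 1.98 ≤ K := Nat.le_ceil _
  have hK2 : (K : ℝ) < (κ + Real.log 300) / Real.log 1.98 + 1 := Nat.ceil_lt_add_one hx0
  have hsmall : 300 * Real.exp κ * (1.98 : ℝ)⁻¹ ^ K ≤ 1 := by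
    have e1 : 300 * Real.exp κ * (1.98 : ℝ)⁻¹ ^ K =
        Real.exp (Real.log 300 + κ - K * Real.log 1.98) := by
      rw [Real.exp_sub, Real.exp_add, Real.exp_log (by norm_num), Real.exp_nat_mul,
        Real.exp_log (by norm_num), inv_pow, div_eq_mul_inv]
    rw [e1, Real.exp_le_one_iff]
    have := (div_le_iff₀ hl198).mp hK1
    linarith
  have hterm : ∀ k ∈ Finset.Icc 1 m, 9.06 * F k - 6.06 * F k ^ 2 ≤
      if k ≤ K then (3.3864 : ℝ) else 9.06 * (1.98 : ℝ)⁻¹ ^ (k - K) := by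
    intro k hk
    split_ifs with h
    · nlinarith [sq_nonneg (F k - 0.7475)]
    · have h1 : F k ≤ (1.98 : ℝ)⁻¹ ^ (k - K) := by
        refine (hF k hk).trans ?_
        have e2 : (1.98 : ℝ)⁻¹ ^ k = (1.98 : ℝ)⁻¹ ^ K * (1.98 : ℝ)⁻¹ ^ (k - K) := by
          rw [← pow_add]; congr 1; omega
        rw [e2, ← mul_assoc]
        have : 0 < (1.98 : ℝ)⁻¹ ^ (k - K) := by positivity
        nlinarith
      nlinarith [sq_nonneg (F k)]
  have hgeom := geom_bound (A := 3.3864) (B := 9.06) (r := (1.98 : ℝ)⁻¹) (by norm_num)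
    (by norm_num) (by norm_num) (by norm_num) K m
  have htot := (Finset.sum_le_sum hterm).trans hgeom
  have hlog : 3.3864 * Real.log 2 ≤ 3.45 * Real.log 1.98 := by
    have e3 : Real.log 1.98 = Real.log 2 + Real.log 0.99 := by
      rw [← Real.log_mul (by norm_num) (by norm_num)]; norm_num
    have e4 : 1 - (0.99 : ℝ)⁻¹ ≤ Real.log 0.99 := Real.one_sub_inv_le_log_of_pos (by norm_num)
    have e5 : (1 - (0.99 : ℝ)⁻¹) ≥ -0.0102 := by norm_num
    have e6 := Real.log_two_gt_d9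
    rw [e3]; nlinarith
  have h5 : Real.log 2 * (3.3864 * ((κ + Real.log 300) / Real.log 1.98)) ≤
      3.45 * (κ + Real.log 300) := by
    have e7 : Real.log 2 * (3.3864 * ((κ + Real.log 300) / Real.log 1.98)) =
        (3.3864 * Real.log 2) * ((κ + Real.log 300) / Real.log 1.98) := by ring
    rw [e7]
    calc (3.3864 * Real.log 2) * ((κ + Real.log 300) / Real.log 1.98)
        ≤ (3.45 * Real.log 1.98) * ((κ + Real.log 300) / Real.log 1.98) :=
          mul_le_mul_of_nonneg_right hlog hx0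
      _ = 3.45 * (κ + Real.log 300) := by field_simp
  have h6 := mul_le_mul_of_nonneg_left htot hl2.le
  have h7 : Real.log 2 * (3.3864 * (K : ℝ)) ≤
      Real.log 2 * (3.3864 * ((κ + Real.log 300) / Real.log 1.98 + 1)) := by
    refine mul_le_mul_of_nonneg_left ?_ hl2.le
    linarith
  nlinarith [h5, h6, h7]

/-! ### The information of the time -/

section Info

variable {Ω : Type*} [Fintype Ω] {β : Type*}

/-- Probability, given `b = b ω`, that an independent copy of the time is near `τ ω`. -/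
noncomputable def Fk (M : ℕ) (p : Ω → ℝ) (b : Ω → β) (τ : Ω → ℤ) (ω : Ω) (k : ℕ) : ℝ :=
  ∑ ω', ker p b ω ω' * near M (τ ω') (τ ω) k

open Classical in
/-- Mass, given `b = z`, of the times near `j`. -/
noncomputable def Fq (M : ℕ) (p : Ω → ℝ) (b : Ω → β) (τ : Ω → ℤ) (z : β) (j : ℤ) (k : ℕ) : ℝ :=
  (∑ ω', (if b ω' = z then p ω' else 0) * near M (τ ω') j k) / law p b z

lemma Fq_eq (M : ℕ) (p : Ω → ℝ) (b : Ω → β) (τ : Ω → ℤ) (ω : Ω) (k : ℕ) :
    Fq M p b τ (b ω) (τ ω) k = Fk M p b τ ω k := by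
  unfold Fq Fk ker
  rw [Finset.sum_div]
  exact Finset.sum_congr rfl fun ω' _ => by ring

lemma Fk_nonneg {M : ℕ} {p : Ω → ℝ} (hp : ∀ ω, 0 ≤ p ω) (b : Ω → β) (τ : Ω → ℤ) (ω : Ω) (k : ℕ) :
    0 ≤ Fk M p b τ ω k :=
  Finset.sum_nonneg fun _ _ => mul_nonneg (ker_nonneg hp b _ _) (near_nonneg _ _ _ _)

lemma Fq_nonneg {M : ℕ} {p : Ω → ℝ} (hp : ∀ ω, 0 ≤ p ω) (b : Ω → β) (τ : Ω → ℤ) (z : β) (j : ℤ)
    (k : ℕ) : 0 ≤ Fq M p b τ z j k := by
  unfold Fq
  refine div_nonneg (Finset.sum_nonneg fun _ _ => mul_nonneg ?_ (near_nonneg _ _ _ _))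
    (law_nonneg hp _ _)
  split_ifs
  · exact hp _
  · exact le_rfl

lemma Fk_pos {M : ℕ} {p : Ω → ℝ} (hp : ∀ ω, 0 ≤ p ω) (b : Ω → β) (τ : Ω → ℤ) {ω : Ω}
    (hω : 0 < p ω) (k : ℕ) : 0 < Fk M p b τ ω k := by
  unfold Fk
  have h1 : ker p b ω ω * near M (τ ω) (τ ω) k ≤
      ∑ ω', ker p b ω ω' * near M (τ ω') (τ ω) k :=
    Finset.single_le_sum (f := fun ω' => ker p b ω ω' * near M (τ ω') (τ ω) k)
      (fun _ _ => mul_nonneg (ker_nonneg hp b _ _) (near_nonneg _ _ _ _)) (Finset.mem_univ ω)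
  refine lt_of_lt_of_le ?_ h1
  have h2 : near M (τ ω) (τ ω) k = 1 := by
    unfold near
    rw [if_pos]
    rw [sub_self, abs_zero]; positivity
  rw [h2, mul_one]
  unfold ker
  rw [if_pos rfl]
  exact div_pos hω (law_pos hp b hω)

lemma card_near_le (M : ℕ) (t : ℤ) (k : ℕ) (F : Finset ℤ) :
    ∑ j ∈ F, near M t j k ≤ 2 * ((M : ℝ) / 2 ^ k) + 1 := by
  classical
  unfold near
  rw [Finset.sum_boole]
  set r := (M : ℝ) / 2 ^ k with hr
  have hr0 : 0 ≤ r := by positivity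
  have hsub : F.filter (fun j : ℤ => |(t : ℝ) - j| ≤ r) ⊆ Finset.Icc (t - ⌊r⌋) (t + ⌊r⌋) := by
    intro j hj
    have h1 := (Finset.mem_filter.mp hj).2
    rw [abs_le] at h1
    have h2 : (t - j : ℤ) ≤ ⌊r⌋ := Int.le_floor.mpr (by push_cast; linarith)
    have h3 : (j - t : ℤ) ≤ ⌊r⌋ := Int.le_floor.mpr (by push_cast; linarith)
    rw [Finset.mem_Icc]; constructor <;> linarith
  have h4 := Finset.card_le_card hsub
  rw [Int.card_Icc] at h4
  have h5 : 0 ≤ ⌊r⌋ := Int.floor_nonneg.mpr hr0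
  have h6 : (((F.filter (fun j : ℤ => |(t : ℝ) - j| ≤ r)).card : ℕ) : ℤ) ≤ 2 * ⌊r⌋ + 1 := by
    have : (((t + ⌊r⌋ + 1 - (t - ⌊r⌋)).toNat : ℕ) : ℤ) = 2 * ⌊r⌋ + 1 := by
      rw [Int.toNat_of_nonneg (by linarith)]; ring
    rw [← this]
    exact_mod_cast h4
  have h7 : (((F.filter (fun j : ℤ => |(t : ℝ) - j| ≤ r)).card : ℕ) : ℝ) ≤ 2 * (⌊r⌋ : ℝ) + 1 := by
    exact_mod_cast h6
  have h8 := Int.floor_le r
  linarith

lemma sum_Fq_le {M : ℕ} {p : Ω → ℝ} (hp : ∀ ω, 0 ≤ p ω) (b : Ω → β) (τ : Ω → ℤ) {ω : Ω}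
    (hω : 0 < p ω) (k : ℕ) (F : Finset ℤ) :
    ∑ j ∈ F, Fq M p b τ (b ω) j k ≤ 2 * ((M : ℝ) / 2 ^ k) + 1 := by
  classical
  have hl := law_pos hp b hω
  have e : ∑ j ∈ F, Fq M p b τ (b ω) j k =
      ∑ ω', ker p b ω ω' * ∑ j ∈ F, near M (τ ω') j k := by
    unfold Fq ker
    rw [← Finset.sum_div, Finset.sum_comm, Finset.sum_div]
    refine Finset.sum_congr rfl fun ω' _ => ?_
    rw [← Finset.mul_sum]; ring
  rw [e]
  calc ∑ ω', ker p b ω ω' * ∑ j ∈ F, near M (τ ω') j k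
      ≤ ∑ ω', ker p b ω ω' * (2 * ((M : ℝ) / 2 ^ k) + 1) :=
        Finset.sum_le_sum fun ω' _ => mul_le_mul_of_nonneg_left (card_near_le _ _ _ _)
          (ker_nonneg hp b _ _)
    _ = 2 * ((M : ℝ) / 2 ^ k) + 1 := by rw [← Finset.sum_mul, sum_ker hp b hω, one_mul]

/-- The mixture of local averages of the law of the time given `b`. -/
noncomputable def mix (M : ℕ) (p : Ω → ℝ) (b : Ω → β) (τ : Ω → ℤ) (z : β) (j : ℤ) : ℝ :=
  ∑ k ∈ Finset.range (Nat.log 2 M + 1), (1 / 100) * (99 / 100) ^ k *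
    (Fq M p b τ z j k / (2 * ((M : ℝ) / 2 ^ k) + 1))

lemma mix_nonneg {M : ℕ} {p : Ω → ℝ} (hp : ∀ ω, 0 ≤ p ω) (b : Ω → β) (τ : Ω → ℤ) (z : β)
    (j : ℤ) : 0 ≤ mix M p b τ z j :=
  Finset.sum_nonneg fun _ _ => mul_nonneg (by positivity)
    (div_nonneg (Fq_nonneg hp b τ _ _ _) (by positivity))

lemma le_mix {M : ℕ} (hM : 0 < M) {p : Ω → ℝ} (hp : ∀ ω, 0 ≤ p ω) (b : Ω → β) (τ : Ω → ℤ)
    (ω : Ω) {k : ℕ} (hk : k ≤ Nat.log 2 M) :
    Fk M p b τ ω k * (1.98 : ℝ) ^ k / 300 ≤ M * mix M p b τ (b ω) (τ ω) := by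
  have hM' : (0 : ℝ) < M := by exact_mod_cast hM
  have h1 : (1 / 100) * (99 / 100) ^ k * (Fq M p b τ (b ω) (τ ω) k /
      (2 * ((M : ℝ) / 2 ^ k) + 1)) ≤ mix M p b τ (b ω) (τ ω) :=
    Finset.single_le_sum (f := fun k => (1 / 100 : ℝ) * (99 / 100) ^ k *
      (Fq M p b τ (b ω) (τ ω) k / (2 * ((M : ℝ) / 2 ^ k) + 1)))
      (fun _ _ => mul_nonneg (by positivity) (div_nonneg (Fq_nonneg hp b τ _ _ _)
        (by positivity))) (Finset.mem_range.mpr (by omega))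
  rw [Fq_eq] at h1
  have hF := Fk_nonneg (M := M) hp b τ ω k
  have hk1 : (1 : ℝ) ≤ (M : ℝ) / 2 ^ k := by
    rw [le_div_iff₀ (by positivity), one_mul]
    have := (Nat.le_log_iff_pow_le (by norm_num) hM.ne').mp hk
    exact_mod_cast this
  have h2 : Fk M p b τ ω k * (1.98 : ℝ) ^ k / 300 ≤
      M * ((1 / 100) * (99 / 100) ^ k * (Fk M p b τ ω k / (2 * ((M : ℝ) / 2 ^ k) + 1))) := by
    have e1 : (1.98 : ℝ) ^ k = (99 / 100) ^ k * 2 ^ k := by
      rw [← mul_pow]; norm_num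
    have h3 : Fk M p b τ ω k / (3 * ((M : ℝ) / 2 ^ k)) ≤
        Fk M p b τ ω k / (2 * ((M : ℝ) / 2 ^ k) + 1) :=
      div_le_div_of_nonneg_left hF (by positivity) (by linarith)
    calc Fk M p b τ ω k * (1.98 : ℝ) ^ k / 300
        = M * ((1 / 100) * (99 / 100) ^ k * (Fk M p b τ ω k / (3 * ((M : ℝ) / 2 ^ k)))) := by
          rw [e1]; field_simp; ring
      _ ≤ _ := by
          refine mul_le_mul_of_nonneg_left ?_ hM'.le
          exact mul_le_mul_of_nonneg_left h3 (by positivity)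
  exact h2.trans (mul_le_mul_of_nonneg_left h1 hM'.le)

lemma mix_pos {M : ℕ} (hM : 0 < M) {p : Ω → ℝ} (hp : ∀ ω, 0 ≤ p ω) (b : Ω → β) (τ : Ω → ℤ)
    {ω : Ω} (hω : 0 < p ω) : 0 < mix M p b τ (b ω) (τ ω) := by
  have hM' : (0 : ℝ) < M := by exact_mod_cast hM
  have h := le_mix hM hp b τ ω (k := 0) (Nat.zero_le _)
  have h1 := Fk_pos (M := M) hp b τ hω 0
  have h2 : 0 < M * mix M p b τ (b ω) (τ ω) := by
    refine lt_of_lt_of_le ?_ h
    positivity
  exact (mul_pos_iff_of_pos_left hM').mp h2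

lemma Ex_log_mix_le {M : ℕ} (hM : 0 < M) {p : Ω → ℝ} (hp : ∀ ω, 0 ≤ p ω) (h1 : ∑ ω, p ω = 1)
    (b : Ω → β) (τ : Ω → ℤ) :
    Ex p (fun ω => Real.log (M * mix M p b τ (b ω) (τ ω))) ≤ Kf M p b τ := by
  have hM' : (0 : ℝ) < M := by exact_mod_cast hM
  have h := CH_le_cross hp h1 τ b (mix M p b τ) (fun ω hω => mix_pos hM hp b τ hω)
    (fun z j => mix_nonneg hp b τ z j)
    (by
      intro ω hω F
      unfold mix
      rw [Finset.sum_comm]
      have h2 : ∀ k ∈ Finset.range (Nat.log 2 M + 1), ∑ x ∈ F, (1 / 100 : ℝ) * (99 / 100) ^ k *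
          (Fq M p b τ (b ω) x k / (2 * ((M : ℝ) / 2 ^ k) + 1)) ≤ (1 / 100) * (99 / 100) ^ k := by
        intro k _
        rw [← Finset.mul_sum, ← Finset.sum_div]
        have h3 : (∑ x ∈ F, Fq M p b τ (b ω) x k) / (2 * ((M : ℝ) / 2 ^ k) + 1) ≤ 1 :=
          (div_le_one (by positivity)).mpr (sum_Fq_le hp b τ hω k F)
        calc (1 / 100 : ℝ) * (99 / 100) ^ k *
            ((∑ x ∈ F, Fq M p b τ (b ω) x k) / (2 * ((M : ℝ) / 2 ^ k) + 1))
            ≤ (1 / 100 : ℝ) * (99 / 100) ^ k * 1 :=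
              mul_le_mul_of_nonneg_left h3 (by positivity)
          _ = _ := mul_one _
      refine (Finset.sum_le_sum h2).trans ?_
      rw [← Finset.mul_sum, geom_sum_eq (by norm_num)]
      have : (0 : ℝ) ≤ (99 / 100) ^ (Nat.log 2 M + 1) := by positivity
      rw [mul_div_assoc', div_le_one_iff]
      right; right
      constructor
      · norm_num
      · linarith)
  have e : Ex p (fun ω => Real.log (M * mix M p b τ (b ω) (τ ω))) =
      Real.log M - Ex p (fun ω => -Real.log (mix M p b τ (b ω) (τ ω))) := by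
    have e1 : Ex p (fun ω => Real.log (M * mix M p b τ (b ω) (τ ω))) =
        Ex p (fun ω => Real.log M - -Real.log (mix M p b τ (b ω) (τ ω))) := by
      unfold Ex
      refine Finset.sum_congr rfl fun ω _ => ?_
      rcases (hp ω).eq_or_lt with h0 | h0
      · rw [← h0, zero_mul, zero_mul]
      · dsimp only
        rw [Real.log_mul hM'.ne' (mix_pos hM hp b τ h0).ne']
        ring
    rw [e1, Ex_sub, Ex_const h1]
  unfold Kf
  rw [e]
  linarith

lemma Gf_le_sum {M : ℕ} {p : Ω → ℝ} (hp : ∀ ω, 0 ≤ p ω)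
    (b : Ω → β) (τ : Ω → ℤ) (hτ : ∀ ω, 0 < p ω → 0 ≤ τ ω ∧ τ ω < M) :
    Gf M p b τ ≤ Ex p (fun ω => Real.log 2 *
      (1 + ∑ k ∈ Finset.Icc 1 (Nat.log 2 M), Fk M p b τ ω k)) := by
  unfold Gf
  rw [Ex_dbl p b (fun ω' ω => ell M (τ ω') (τ ω))]
  refine Ex_mono hp fun ω hω => ?_
  have hk := ker_nonneg hp b ω
  have hterm : ∀ ω', ker p b ω ω' * ell M (τ ω') (τ ω) ≤
      ker p b ω ω' * (Real.log 2 * (1 + ∑ k ∈ Finset.Icc 1 (Nat.log 2 M),
        near M (τ ω') (τ ω) k)) := by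
    intro ω'
    rcases (hp ω').eq_or_lt with h0 | h0
    · have : ker p b ω ω' = 0 := by
        unfold ker
        rw [← h0]; simp
      rw [this, zero_mul, zero_mul]
    · exact mul_le_mul_of_nonneg_left (ell_le (hτ _ h0) (hτ _ hω)) (hk _)
  refine (Finset.sum_le_sum fun ω' _ => hterm ω').trans (le_of_eq ?_)
  have e1 : ∀ ω', ker p b ω ω' * (Real.log 2 * (1 + ∑ k ∈ Finset.Icc 1 (Nat.log 2 M),
        near M (τ ω') (τ ω) k)) = Real.log 2 * (ker p b ω ω' +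
        ∑ k ∈ Finset.Icc 1 (Nat.log 2 M), ker p b ω ω' * near M (τ ω') (τ ω) k) := by
    intro ω'
    rw [← Finset.mul_sum]; ring
  rw [Finset.sum_congr rfl fun ω' _ => e1 ω', ← Finset.mul_sum, Finset.sum_add_distrib,
    sum_ker hp b hω, Finset.sum_comm]
  rfl

lemma Df_le_sum {M : ℕ} {p : Ω → ℝ} (hp : ∀ ω, 0 ≤ p ω)
    (b : Ω → β) (τ : Ω → ℤ) (hτ : ∀ ω, 0 < p ω → 0 ≤ τ ω ∧ τ ω < M) :
    Df p b τ ≤ Ex p (fun ω => Real.log 10 + Real.log 2 *
      (1 + ∑ k ∈ Finset.Icc 1 (Nat.log 2 M), Fk M p b τ ω k * (1 - Fk M p b τ ω k))) := by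
  unfold Df
  rw [Ex_tri hp b (fun ω₁ ω₂ ω => Real.log (1 + |kap (τ ω₁) (τ ω₂) (τ ω)|))]
  refine Ex_mono hp fun ω hω => ?_
  have hk := ker_nonneg hp b ω
  have hk0 : ∀ ω', p ω' = 0 → ker p b ω ω' = 0 := by
    intro ω' h
    unfold ker
    rw [h]; simp
  have hterm : ∀ ω₁ ω₂, ker p b ω ω₁ * ker p b ω ω₂ *
      Real.log (1 + |kap (τ ω₁) (τ ω₂) (τ ω)|) ≤
      ker p b ω ω₁ * ker p b ω ω₂ * (Real.log 10 + Real.log 2 * (1 +
        ∑ k ∈ Finset.Icc 1 (Nat.log 2 M),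
          near M (τ ω₁) (τ ω) k * (1 - near M (τ ω₂) (τ ω) k))) := by
    intro ω₁ ω₂
    rcases (hp ω₁).eq_or_lt with h0 | h0
    · rw [hk0 ω₁ h0.symm]; simp
    rcases (hp ω₂).eq_or_lt with h0' | h0'
    · rw [hk0 ω₂ h0'.symm]; simp
    exact mul_le_mul_of_nonneg_left (kaplog_le (hτ _ h0) (hτ _ h0') (hτ _ hω))
      (mul_nonneg (hk _) (hk _))
  refine (Finset.sum_le_sum fun ω₁ _ => Finset.sum_le_sum fun ω₂ _ => hterm ω₁ ω₂).trans
    (le_of_eq ?_)
  have hs := sum_ker hp b hω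
  set L := Finset.Icc 1 (Nat.log 2 M) with hL
  have e1 : ∀ ω₁ ω₂, ker p b ω ω₁ * ker p b ω ω₂ * (Real.log 10 + Real.log 2 * (1 +
        ∑ k ∈ L, near M (τ ω₁) (τ ω) k * (1 - near M (τ ω₂) (τ ω) k))) =
      (Real.log 10 + Real.log 2) * (ker p b ω ω₁ * ker p b ω ω₂) + Real.log 2 *
        ∑ k ∈ L, (ker p b ω ω₁ * near M (τ ω₁) (τ ω) k) *
          (ker p b ω ω₂ * (1 - near M (τ ω₂) (τ ω) k)) := by
    intro ω₁ ω₂
    have : ∑ k ∈ L, (ker p b ω ω₁ * near M (τ ω₁) (τ ω) k) *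
          (ker p b ω ω₂ * (1 - near M (τ ω₂) (τ ω) k)) =
        ker p b ω ω₁ * ker p b ω ω₂ *
          ∑ k ∈ L, near M (τ ω₁) (τ ω) k * (1 - near M (τ ω₂) (τ ω) k) := by
      rw [Finset.mul_sum]
      exact Finset.sum_congr rfl fun k _ => by ring
    rw [this]; ring
  have e2 : ∑ ω₁, ∑ ω₂, ker p b ω ω₁ * ker p b ω ω₂ = 1 := by
    rw [← Finset.sum_mul_sum, hs, one_mul]
  have e3 : ∑ ω₁, ∑ ω₂, ∑ k ∈ L, (ker p b ω ω₁ * near M (τ ω₁) (τ ω) k) *
          (ker p b ω ω₂ * (1 - near M (τ ω₂) (τ ω) k)) =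
      ∑ k ∈ L, Fk M p b τ ω k * (1 - Fk M p b τ ω k) := by
    have e4 : ∀ ω₁, ∑ ω₂, ∑ k ∈ L, (ker p b ω ω₁ * near M (τ ω₁) (τ ω) k) *
          (ker p b ω ω₂ * (1 - near M (τ ω₂) (τ ω) k)) =
        ∑ k ∈ L, ∑ ω₂, (ker p b ω ω₁ * near M (τ ω₁) (τ ω) k) *
          (ker p b ω ω₂ * (1 - near M (τ ω₂) (τ ω) k)) := fun ω₁ => Finset.sum_comm
    rw [Finset.sum_congr rfl fun ω₁ _ => e4 ω₁, Finset.sum_comm]
    refine Finset.sum_congr rfl fun k _ => ?_
    rw [← Finset.sum_mul_sum]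
    have e5 : ∑ ω₂, ker p b ω ω₂ * (1 - near M (τ ω₂) (τ ω) k) = 1 - Fk M p b τ ω k := by
      have e7 : ∑ ω₂, ker p b ω ω₂ * (1 - near M (τ ω₂) (τ ω) k) =
          ∑ ω₂, ker p b ω ω₂ - Fk M p b τ ω k := by
        unfold Fk
        rw [← Finset.sum_sub_distrib]
        exact Finset.sum_congr rfl fun ω₂ _ => by ring
      rw [e7, hs]
    rw [e5]; rfl
  rw [Finset.sum_congr rfl fun ω₁ _ => Finset.sum_congr rfl fun ω₂ _ => e1 ω₁ ω₂]
  simp_rw [Finset.sum_add_distrib, ← Finset.mul_sum]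
  have e6 : ∑ i, ker p b ω i * ∑ i, ker p b ω i = 1 := by
    rw [hs]; simp [hs]
  rw [e3, e6]
  ring

end Info

theorem time_ineq : ∃ C : ℝ, ∀ (Ω : Type) [Fintype Ω] (β : Type) (M : ℕ) (p : Ω → ℝ) (b : Ω → β)
    (τ : Ω → ℤ), 0 < M → (∀ ω, 0 ≤ p ω) → ∑ ω, p ω = 1 →
    (∀ ω, 0 < p ω → 0 ≤ τ ω ∧ τ ω < M) →
    3 * Gf M p b τ + 6.06 * Df p b τ ≤ 3.45 * Kf M p b τ + C := by
  obtain ⟨C₁, hC₁⟩ := psi_sum_le
  refine ⟨3 * Real.log 2 + 6.06 * (Real.log 10 + Real.log 2) + C₁, ?_⟩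
  intro Ω _ β M p b τ hM hp h1 hτ
  have hM' : (0 : ℝ) < M := by exact_mod_cast hM
  have hG := Gf_le_sum hp b τ hτ
  have hD := Df_le_sum hp b τ hτ
  have hK := Ex_log_mix_le hM hp h1 b τ
  set L := Finset.Icc 1 (Nat.log 2 M) with hL
  set κ : Ω → ℝ := fun ω => Real.log (M * mix M p b τ (b ω) (τ ω)) with hκ
  have hpoint : ∀ ω, 0 < p ω →
      3 * (Real.log 2 * (1 + ∑ k ∈ L, Fk M p b τ ω k)) + 6.06 * (Real.log 10 + Real.log 2 *
        (1 + ∑ k ∈ L, Fk M p b τ ω k * (1 - Fk M p b τ ω k))) ≤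
      3.45 * κ ω + (3 * Real.log 2 + 6.06 * (Real.log 10 + Real.log 2) + C₁) := by
    intro ω hω
    have hmp : 0 < M * mix M p b τ (b ω) (τ ω) := mul_pos hM' (mix_pos hM hp b τ hω)
    have hexp : Real.exp (κ ω) = M * mix M p b τ (b ω) (τ ω) := Real.exp_log hmp
    have hF : ∀ k ∈ L, Fk M p b τ ω k ≤ 300 * Real.exp (κ ω) * (1.98 : ℝ)⁻¹ ^ k := by
      intro k hk
      have h2 := le_mix hM hp b τ ω (Finset.mem_Icc.mp hk).2
      rw [← hexp, div_le_iff₀ (by norm_num)] at h2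
      rw [inv_pow, ← div_eq_mul_inv, le_div_iff₀ (by positivity)]
      linarith
    have hF0 : Fk M p b τ ω 0 = 1 := by
      unfold Fk
      rw [← sum_ker hp b hω]
      refine Finset.sum_congr rfl fun ω' _ => ?_
      rcases (hp ω').eq_or_lt with h0 | h0
      · have : ker p b ω ω' = 0 := by
          unfold ker
          rw [← h0]; simp
        rw [this, zero_mul]
      · have : near M (τ ω') (τ ω) 0 = 1 := by
          unfold near
          rw [pow_zero, div_one, if_pos ((le_max_left _ _).trans (dist_le (hτ _ h0) (hτ _ hω)))]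
        rw [this, mul_one]
    have hκ0 : -Real.log 300 ≤ κ ω := by
      have h2 := le_mix hM hp b τ ω (Nat.zero_le (Nat.log 2 M))
      rw [hF0, pow_zero, mul_one, ← hexp] at h2
      have h3 := Real.log_le_log (by norm_num) h2
      rw [Real.log_exp, one_div, Real.log_inv] at h3
      exact h3
    have hmain := hC₁ (κ ω) (Nat.log 2 M) (Fk M p b τ ω) hκ0
      (fun k _ => Fk_nonneg hp b τ ω k) hF
    have e : Real.log 2 * ∑ k ∈ L, (9.06 * Fk M p b τ ω k - 6.06 * Fk M p b τ ω k ^ 2) =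
        3 * (Real.log 2 * ∑ k ∈ L, Fk M p b τ ω k) + 6.06 * (Real.log 2 *
          ∑ k ∈ L, Fk M p b τ ω k * (1 - Fk M p b τ ω k)) := by
      have : ∀ k ∈ L, 9.06 * Fk M p b τ ω k - 6.06 * Fk M p b τ ω k ^ 2 =
          3 * Fk M p b τ ω k + 6.06 * (Fk M p b τ ω k * (1 - Fk M p b τ ω k)) := by
        intro k _; ring
      rw [Finset.sum_congr rfl this, Finset.sum_add_distrib, ← Finset.mul_sum, ← Finset.mul_sum]
      ring
    rw [e] at hmain
    nlinarith [hmain]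
  have htot := Ex_mono hp hpoint
  have e1 := Ex_add p (fun ω => 3 * (Real.log 2 * (1 + ∑ k ∈ L, Fk M p b τ ω k)))
    (fun ω => 6.06 * (Real.log 10 + Real.log 2 *
        (1 + ∑ k ∈ L, Fk M p b τ ω k * (1 - Fk M p b τ ω k))))
  have e2 := Ex_smul p 3 (fun ω => Real.log 2 * (1 + ∑ k ∈ L, Fk M p b τ ω k))
  have e3 := Ex_smul p 6.06 (fun ω => Real.log 10 + Real.log 2 *
        (1 + ∑ k ∈ L, Fk M p b τ ω k * (1 - Fk M p b τ ω k)))
  have e4 := Ex_add p (fun ω => 3.45 * κ ω)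
    (fun _ => 3 * Real.log 2 + 6.06 * (Real.log 10 + Real.log 2) + C₁)
  have e5 := Ex_smul p 3.45 κ
  have e6 := Ex_const h1 (3 * Real.log 2 + 6.06 * (Real.log 10 + Real.log 2) + C₁)
  linarith

end Pool.Agent.H55.Dense
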