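import Pool.Agent.H53.Kak.Basic

/-!
# From a density bound for tubes to the Hausdorff dimension of Kakeya sets
-/

set_option autoImplicit false

open MeasureTheory Set Metric

open scoped RealInnerProductSpace ENNReal NNReal

namespace Pool.Agent.H55.HDim

open Pool.Agent.H53.Kak

/-- Density bound for tubes, with a small loss in `δ` and a power of the density `lam`. -/
def Dens (d : ℕ) (b : ℝ) : Prop :=
  ∀ ε : ℝ, 0 < ε → ∃ c P : ℝ, 0 < c ∧ ∀ δ : ℝ, 0 < δ → δ < 1 → ∀ (ι : Type) (S : Finset ι)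
    (x₀ e : ι → E d), Fam δ e S → ∀ (X : Set (E d)), MeasurableSet X → ∀ lam : ℝ, 0 < lam →
    lam ≤ 1 →
    (∀ i ∈ S, ENNReal.ofReal (lam * δ ^ d) ≤ volume (X ∩ tube δ (x₀ i) (e i))) →
    ENNReal.ofReal (c * δ ^ ε * (lam ^ P * δ ^ d * (S.card : ℝ) ^ b)) ≤ volume X

/-! ### Directions -/

section dirs

variable {d : ℕ}

/-- The vector `(1, w)`. -/
noncomputable def vdir (w : Fin d → ℝ) : E d := WithLp.toLp 2 (Fin.cons 1 w : Fin (d + 1) → ℝ)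

/-- The direction of `(1, w)`. -/
noncomputable def edir (w : Fin d → ℝ) : E d := (‖vdir w‖⁻¹) • vdir w

lemma vdir_zero (w : Fin d → ℝ) : vdir w 0 = 1 := rfl

lemma vdir_succ (w : Fin d → ℝ) (i : Fin d) : vdir w i.succ = w i := rfl

lemma coord_le (z : E d) (k : Fin (d + 1)) : |z k| ≤ ‖z‖ := by
  rw [EuclideanSpace.norm_eq, ← Real.sqrt_sq_eq_abs]
  apply Real.sqrt_le_sqrt
  have h2 := Finset.single_le_sum (f := fun i => ‖z i‖ ^ 2) (fun i _ => sq_nonneg _)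
    (Finset.mem_univ k)
  simp only [Real.norm_eq_abs, sq_abs] at h2 ⊢
  exact h2

lemma one_le_norm_vdir (w : Fin d → ℝ) : 1 ≤ ‖vdir w‖ := by
  have := coord_le (vdir w) 0
  rwa [vdir_zero, abs_one] at this

lemma norm_vdir_le (w : Fin d → ℝ) (hw : ∀ i, 0 ≤ w i ∧ w i ≤ 1) : ‖vdir w‖ ≤ (d : ℝ) + 1 := by
  rw [EuclideanSpace.norm_eq, Real.sqrt_le_left (by positivity)]
  calc ∑ i, ‖vdir w i‖ ^ 2 ≤ ∑ _i : Fin (d + 1), (1 : ℝ) := by
        refine Finset.sum_le_sum fun i _ => ?_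
        rw [Real.norm_eq_abs, sq_abs]
        refine Fin.cases ?_ (fun i => ?_) i
        · rw [vdir_zero]; norm_num
        · rw [vdir_succ]
          have := hw i
          nlinarith
    _ = (d : ℝ) + 1 := by simp
    _ ≤ ((d : ℝ) + 1) ^ 2 := by nlinarith [Nat.cast_nonneg (α := ℝ) d]

lemma norm_edir (w : Fin d → ℝ) : ‖edir w‖ = 1 := by
  have h := one_le_norm_vdir w
  rw [edir, norm_smul, norm_inv, norm_norm, inv_mul_cancel₀ (by linarith)]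

lemma edir_sep (w w' : Fin d → ℝ) (hw : ∀ i, 0 ≤ w i ∧ w i ≤ 1) (hw' : ∀ i, 0 ≤ w' i ∧ w' i ≤ 1)
    (i : Fin d) : |w i - w' i| ≤ 2 * ((d : ℝ) + 1) ^ 2 * ‖edir w - edir w'‖ := by
  obtain ⟨ρ, hρ⟩ : ∃ ρ, ρ = ‖vdir w‖ := ⟨_, rfl⟩
  obtain ⟨ρ', hρ'⟩ : ∃ ρ', ρ' = ‖vdir w'‖ := ⟨_, rfl⟩
  have h1 : 1 ≤ ρ := hρ ▸ one_le_norm_vdir w
  have h1' : 1 ≤ ρ' := hρ' ▸ one_le_norm_vdir w'
  have h2 : ρ ≤ (d : ℝ) + 1 := hρ ▸ norm_vdir_le w hw
  have h2' : ρ' ≤ (d : ℝ) + 1 := hρ' ▸ norm_vdir_le w' hw'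
  have hd : (1 : ℝ) ≤ (d : ℝ) + 1 := by linarith [Nat.cast_nonneg (α := ℝ) d]
  obtain ⟨z, hz⟩ : ∃ z, z = edir w - edir w' := ⟨_, rfl⟩
  have hv : vdir w = ρ • edir w := by
    rw [edir, ← hρ, smul_smul, mul_inv_cancel₀ (by linarith), one_smul]
  have hv' : vdir w' = ρ' • edir w' := by
    rw [edir, ← hρ', smul_smul, mul_inv_cancel₀ (by linarith), one_smul]
  have e0 : edir w 0 = ρ⁻¹ := by
    rw [edir, ← hρ, PiLp.smul_apply, vdir_zero, smul_eq_mul, mul_one]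
  have e0' : edir w' 0 = ρ'⁻¹ := by
    rw [edir, ← hρ', PiLp.smul_apply, vdir_zero, smul_eq_mul, mul_one]
  have h3 : |ρ - ρ'| ≤ ρ * ρ' * ‖z‖ := by
    have h4 : |z 0| ≤ ‖z‖ := coord_le z 0
    have h5 : z 0 = ρ⁻¹ - ρ'⁻¹ := by rw [hz, PiLp.sub_apply, e0, e0']
    have h6 : ρ - ρ' = -(z 0 * (ρ * ρ')) := by
      rw [h5]; field_simp; ring
    rw [h6, abs_neg, abs_mul, abs_of_pos (by positivity : 0 < ρ * ρ'), mul_comm]
    exact mul_le_mul_of_nonneg_left h4 (by positivity)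
  have h7 : vdir w - vdir w' = ρ • z + (ρ - ρ') • edir w' := by
    rw [hv, hv', hz, smul_sub, sub_smul]; abel
  have h8 : ‖vdir w - vdir w'‖ ≤ ρ * ‖z‖ + ρ * ρ' * ‖z‖ := by
    rw [h7]
    refine (norm_add_le _ _).trans ?_
    rw [norm_smul, norm_smul, norm_edir, mul_one, Real.norm_eq_abs, Real.norm_eq_abs,
      abs_of_pos (by linarith)]
    linarith
  have h9 : |w i - w' i| ≤ ‖vdir w - vdir w'‖ := by
    have := coord_le (vdir w - vdir w') i.succ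
    rwa [PiLp.sub_apply, vdir_succ, vdir_succ] at this
  rw [← hz]
  have hz0 := norm_nonneg z
  have h10 : ρ * ‖z‖ ≤ ((d : ℝ) + 1) ^ 2 * ‖z‖ := by
    refine mul_le_mul_of_nonneg_right ?_ hz0
    nlinarith
  have h11 : ρ * ρ' * ‖z‖ ≤ ((d : ℝ) + 1) ^ 2 * ‖z‖ := by
    refine mul_le_mul_of_nonneg_right ?_ hz0
    nlinarith
  linarith

end dirs

/-! ### Selection of separated points -/

lemma select {d : ℕ} (Ω : Set (Fin d → ℝ)) (hΩ : ∀ w ∈ Ω, ∀ i, 0 ≤ w i ∧ w i ≤ 1) {r α : ℝ}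
    (hr : 0 < r) (hα : ENNReal.ofReal α ≤ volume Ω) :
    ∃ (Z : Finset (Fin d → ℤ)) (w : (Fin d → ℤ) → (Fin d → ℝ)), (∀ z ∈ Z, w z ∈ Ω) ∧
      (∀ z ∈ Z, ∀ z' ∈ Z, z ≠ z' → ∃ i, r ≤ |w z i - w z' i|) ∧ α ≤ 2 ^ d * r ^ d * Z.card := by
  classical
  set Z0 : Finset (Fin d → ℤ) := (Fintype.piFinset fun _ => Finset.Icc 0 ⌊1 / r⌋).filter
    (fun z => ∃ x ∈ Ω, ∀ i, ⌊x i / r⌋ = z i) with hZ0
  have hcov : Ω ⊆ ⋃ z ∈ Z0, Set.pi univ fun i => Set.Ico ((z i : ℝ) * r) (((z i : ℝ) + 1) * r) := by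
    intro x hx
    have hx1 := hΩ x hx
    refine Set.mem_iUnion₂.mpr ⟨fun i => ⌊x i / r⌋, ?_, ?_⟩
    · rw [hZ0, Finset.mem_filter, Fintype.mem_piFinset]
      refine ⟨fun i => ?_, x, hx, fun i => rfl⟩
      rw [Finset.mem_Icc]
      refine ⟨Int.floor_nonneg.mpr (div_nonneg (hx1 i).1 hr.le), Int.floor_le_floor ?_⟩
      exact div_le_div_of_nonneg_right (hx1 i).2 hr.le
    · intro i _
      have h1 := Int.floor_le (x i / r)
      have h2 := Int.lt_floor_add_one (x i / r)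
      exact ⟨(le_div_iff₀ hr).mp h1, (div_lt_iff₀ hr).mp h2⟩
  have hvol : volume Ω ≤ ENNReal.ofReal (r ^ d * Z0.card) := by
    refine (measure_mono hcov).trans ((measure_biUnion_finset_le _ _).trans ?_)
    have h1 : ∀ z ∈ Z0, volume (Set.pi univ fun i => Set.Ico ((z i : ℝ) * r)
        (((z i : ℝ) + 1) * r)) = ENNReal.ofReal (r ^ d) := by
      intro z _
      rw [volume_pi_pi]
      have h2 : ∀ i : Fin d, volume (Set.Ico ((z i : ℝ) * r) (((z i : ℝ) + 1) * r)) =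
          ENNReal.ofReal r := by
        intro i
        rw [Real.volume_Ico]; congr 1; ring
      simp_rw [h2]
      rw [Finset.prod_const, Finset.card_univ, Fintype.card_fin, ENNReal.ofReal_pow hr.le]
    rw [Finset.sum_congr rfl h1, Finset.sum_const, nsmul_eq_mul, mul_comm (r ^ d),
      ENNReal.ofReal_mul (by positivity), ENNReal.ofReal_natCast]
  have hcard : α ≤ r ^ d * Z0.card := by
    by_contra hcon
    push Not at hcon
    have h1 := hα.trans hvol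
    have h2 : 0 < α := lt_of_le_of_lt (by positivity) hcon
    have h3 := (ENNReal.ofReal_le_ofReal_iff (by positivity)).mp h1
    linarith
  -- parity classes
  have hmaps : ∀ z ∈ Z0, (fun i => z i % 2) ∈ Fintype.piFinset (fun _ : Fin d =>
      ({0, 1} : Finset ℤ)) := by
    intro z _
    rw [Fintype.mem_piFinset]
    intro i
    rw [Finset.mem_insert, Finset.mem_singleton]
    omega
  have hcardT : (Fintype.piFinset (fun _ : Fin d => ({0, 1} : Finset ℤ))).card = 2 ^ d := by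
    rw [Fintype.card_piFinset]; simp
  obtain ⟨y, hy, hy2⟩ := Finset.exists_le_card_fiber_of_nsmul_le_card_of_maps_to
    (b := (Z0.card : ℝ) / 2 ^ d) hmaps
    (Finset.card_pos.mp (by rw [hcardT]; positivity))
    (by rw [hcardT, nsmul_eq_mul]; push_cast; rw [mul_div_cancel₀ _ (by positivity)])
  set Z := Z0.filter (fun z => (fun i => z i % 2) = y) with hZ
  have hex : ∀ z ∈ Z, ∃ x ∈ Ω, ∀ i, ⌊x i / r⌋ = z i := by
    intro z hz
    exact (Finset.mem_filter.mp (Finset.mem_filter.mp hz).1).2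
  choose! w hw1 hw2 using hex
  refine ⟨Z, w, hw1, ?_, ?_⟩
  · intro z hz z' hz' hne
    obtain ⟨i, hi⟩ := Function.ne_iff.mp hne
    refine ⟨i, ?_⟩
    have hp : z i % 2 = z' i % 2 := by
      have e1 := congrFun (Finset.mem_filter.mp hz).2 i
      have e2 := congrFun (Finset.mem_filter.mp hz').2 i
      rw [e1, e2]
    have h2 : 2 ≤ |z i - z' i| := by
      rcases abs_cases (z i - z' i) with h | h <;> omega
    have h3 := hw2 z hz i
    have h4 := hw2 z' hz' i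
    rw [Int.floor_eq_iff] at h3 h4
    have h5 : (2 : ℝ) ≤ |(z i : ℝ) - z' i| := by exact_mod_cast h2
    have h6 : 1 ≤ |w z i / r - w z' i / r| := by
      rcases abs_cases ((z i : ℝ) - z' i) with h | h
      · rw [h.1] at h5
        refine le_trans ?_ (le_abs_self _)
        linarith
      · rw [h.1] at h5
        refine le_trans ?_ (neg_le_abs _)
        linarith
    rw [← sub_div, abs_div, abs_of_pos hr, le_div_iff₀ hr, one_mul] at h6
    exact h6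
  · have h7 : (Z0.card : ℝ) ≤ 2 ^ d * Z.card := by
      have := hy2
      rw [div_le_iff₀ (by positivity)] at this
      linarith
    calc α ≤ r ^ d * Z0.card := hcard
      _ ≤ r ^ d * (2 ^ d * Z.card) := by gcongr
      _ = 2 ^ d * r ^ d * Z.card := by ring

lemma select1 (Q : Set ℝ) (hQ : ∀ t ∈ Q, 0 ≤ t ∧ t ≤ 1) {r α : ℝ}
    (hr : 0 < r) (hα : ENNReal.ofReal α ≤ volume Q) :
    ∃ (Z : Finset (Fin 1 → ℤ)) (t : (Fin 1 → ℤ) → ℝ), (∀ z ∈ Z, t z ∈ Q) ∧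
      (∀ z ∈ Z, ∀ z' ∈ Z, z ≠ z' → r ≤ |t z - t z'|) ∧ α ≤ 2 * r * Z.card := by
  have hmp := volume_preserving_funUnique (Fin 1) ℝ
  have hvol : volume ((MeasurableEquiv.funUnique (Fin 1) ℝ) ⁻¹' Q) = volume Q := by
    rw [← hmp.map_eq]
    conv_rhs => rw [hmp.map_eq, ← hmp.map_eq]
    exact (MeasurableEquiv.map_apply _ _).symm
  obtain ⟨Z, w, h1, h2, h3⟩ := select (d := 1) ((MeasurableEquiv.funUnique (Fin 1) ℝ) ⁻¹' Q)
    (fun w hw i => by
      have := hQ _ hw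
      rw [Subsingleton.elim i default]
      exact this) hr (hvol ▸ hα)
  refine ⟨Z, fun z => w z default, h1, ?_, by simpa using h3⟩
  intro z hz z' hz' hne
  obtain ⟨i, hi⟩ := h2 z hz z' hz' hne
  rw [Subsingleton.elim i default] at hi
  exact hi

/-! ### Mass of a union of balls in a tube -/

lemma ball_subset_tube {d : ℕ} {δ t : ℝ} {p e : E d} (he : ‖e‖ = 1)
    (hδ1 : δ ≤ 1 / 2) (ht : 1 / 4 ≤ t ∧ t ≤ 3 / 4) :
    ball (p + t • e) (δ / 2) ⊆ tube δ (p + (1 / 2 : ℝ) • e) e := by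
  intro x hx
  rw [mem_ball, dist_eq_norm] at hx
  obtain ⟨h, hh⟩ : ∃ h, h = x - (p + t • e) := ⟨_, rfl⟩
  rw [← hh] at hx
  have hxc : x - (p + (1 / 2 : ℝ) • e) = (t - 1 / 2) • e + h := by
    rw [hh, sub_smul]; abel
  have hee : ⟪e, e⟫ = (1 : ℝ) := by rw [real_inner_self_eq_norm_sq, he, one_pow]
  have h1 : ⟪x - (p + (1 / 2 : ℝ) • e), e⟫ = (t - 1 / 2) + ⟪h, e⟫ := by
    rw [hxc, inner_add_left, inner_smul_left, hee]
    simp
  have hhe : |⟪h, e⟫| ≤ δ / 2 := by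
    have := abs_real_inner_le_norm h e
    rw [he, mul_one] at this
    linarith
  have hhe' := abs_le.mp hhe
  refine ⟨?_, ?_⟩
  · rw [h1, abs_le]
    constructor <;> linarith [ht.1, ht.2, hhe'.1, hhe'.2]
  · rw [h1, hxc]
    have h2 : (t - 1 / 2) • e + h - ((t - 1 / 2) + ⟪h, e⟫) • e = h - ⟪h, e⟫ • e := by
      rw [add_smul]; abel
    rw [h2]
    have h3 : ‖⟪h, e⟫ • e‖ ≤ δ / 2 := by rw [norm_smul, he, mul_one]; exact hhe
    have := norm_sub_le h (⟪h, e⟫ • e)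
    linarith

/-- Volume of the unit ball. -/
noncomputable def om (d : ℕ) : ℝ := (volume (ball (0 : E d) 1)).toReal

lemma om_pos (d : ℕ) : 0 < om d :=
  ENNReal.toReal_pos (measure_ball_pos _ _ one_pos).ne' measure_ball_lt_top.ne

lemma volume_ball_eq {d : ℕ} (x : E d) {r : ℝ} (hr : 0 < r) :
    volume (ball x r) = ENNReal.ofReal (r ^ (d + 1) * om d) := by
  rw [Measure.addHaar_ball_of_pos _ _ hr, ENNReal.ofReal_mul (by positivity), om,
    ENNReal.ofReal_toReal measure_ball_lt_top.ne]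
  simp

lemma volume_closedBall_eq {d : ℕ} (x : E d) {r : ℝ} (hr : 0 < r) :
    volume (closedBall x r) = ENNReal.ofReal (r ^ (d + 1) * om d) := by
  rw [Measure.addHaar_closedBall _ _ hr.le, ENNReal.ofReal_mul (by positivity), om,
    ENNReal.ofReal_toReal measure_ball_lt_top.ne]
  simp

lemma tube_mass {d : ℕ} {δ α : ℝ} {p e : E d} (he : ‖e‖ = 1) (hδ : 0 < δ) (hδ1 : δ ≤ 1 / 2)
    (F : Finset ℕ) (x : ℕ → E d) (Q : Set ℝ)
    (hQ : ∀ t ∈ Q, (1 / 4 ≤ t ∧ t ≤ 3 / 4) ∧ ∃ n ∈ F, dist (p + t • e) (x n) ≤ δ)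
    (hα : ENNReal.ofReal α ≤ volume Q) :
    ENNReal.ofReal (α * (om d / 2 ^ (d + 2)) * δ ^ d) ≤
      volume ((⋃ n ∈ F, closedBall (x n) (2 * δ)) ∩ tube δ (p + (1 / 2 : ℝ) • e) e) := by
  classical
  obtain ⟨Z, t, h1, h2, h3⟩ := select1 Q (fun t ht => by
    have := (hQ t ht).1
    constructor <;> linarith [this.1, this.2]) hδ hα
  have hom := om_pos d
  have hdisj : (Z : Set (Fin 1 → ℤ)).PairwiseDisjoint fun z => ball (p + t z • e) (δ / 2) := by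
    intro z hz z' hz' hne
    refine ball_disjoint_ball ?_
    rw [dist_eq_norm, add_sub_add_left_eq_sub, ← sub_smul, norm_smul, he, mul_one,
      Real.norm_eq_abs]
    have := h2 z hz z' hz' hne
    linarith
  have hsub : (⋃ z ∈ Z, ball (p + t z • e) (δ / 2)) ⊆
      (⋃ n ∈ F, closedBall (x n) (2 * δ)) ∩ tube δ (p + (1 / 2 : ℝ) • e) e := by
    intro y hy
    obtain ⟨z, hz, hyz⟩ := Set.mem_iUnion₂.mp hy
    have h4 := hQ _ (h1 z hz)
    refine ⟨?_, ball_subset_tube he hδ1 h4.1 hyz⟩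
    obtain ⟨n, hn, hn2⟩ := h4.2
    refine Set.mem_iUnion₂.mpr ⟨n, hn, ?_⟩
    rw [mem_ball] at hyz
    rw [mem_closedBall]
    calc dist y (x n) ≤ dist y (p + t z • e) + dist (p + t z • e) (x n) := dist_triangle _ _ _
      _ ≤ 2 * δ := by linarith
  refine le_trans ?_ (measure_mono hsub)
  rw [measure_biUnion_finset hdisj (fun _ _ => measurableSet_ball)]
  have h5 : ∀ z ∈ Z, volume (ball (p + t z • e) (δ / 2)) =
      ENNReal.ofReal ((δ / 2) ^ (d + 1) * om d) := fun z _ => volume_ball_eq _ (by positivity)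
  rw [Finset.sum_congr rfl h5, Finset.sum_const, nsmul_eq_mul, ← ENNReal.ofReal_natCast,
    ← ENNReal.ofReal_mul (by positivity)]
  refine ENNReal.ofReal_le_ofReal ?_
  have e1 : (δ / 2) ^ (d + 1) = δ ^ d * δ / 2 ^ (d + 1) := by rw [div_pow, pow_succ δ d]
  have e2 : (2 : ℝ) ^ (d + 2) = 2 * 2 ^ (d + 1) := by ring
  rw [e1, e2]
  calc α * (om d / (2 * 2 ^ (d + 1))) * δ ^ d = α * (om d * δ ^ d / (2 * 2 ^ (d + 1))) := by ring
    _ ≤ (2 * δ * Z.card) * (om d * δ ^ d / (2 * 2 ^ (d + 1))) := by gcongr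
    _ = (Z.card : ℝ) * (δ ^ d * δ / 2 ^ (d + 1) * om d) := by field_simp

/-! ### Covers from the vanishing of the Hausdorff measure -/

lemma cover_of_zero {d : ℕ} (K : Set (E d)) {s η : ℝ} (hs : 0 < s) (h : μH[s] K = 0)
    (hη : 0 < η) : ∃ (x : ℕ → E d) (ρ : ℕ → ℝ), (∀ n, 0 < ρ n) ∧
      K ⊆ ⋃ n, closedBall (x n) (ρ n) ∧ ∑' n, ENNReal.ofReal (ρ n ^ s) ≤ ENNReal.ofReal η := by
  classical
  rw [Measure.hausdorffMeasure_apply] at h
  have h1 : (⨅ (t : ℕ → Set (E d)) (_ : K ⊆ ⋃ n, t n) (_ : ∀ n, ediam (t n) ≤ 1),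
      ∑' n, ⨆ _ : (t n).Nonempty, ediam (t n) ^ s) = 0 := by
    refine le_antisymm (le_trans ?_ h.le) zero_le
    exact le_iSup₂ (f := fun (r : ℝ≥0∞) (_ : 0 < r) =>
      ⨅ (t : ℕ → Set (E d)) (_ : K ⊆ ⋃ n, t n) (_ : ∀ n, ediam (t n) ≤ r),
      ∑' n, ⨆ _ : (t n).Nonempty, ediam (t n) ^ s) 1 one_pos
  have h2 : (⨅ (t : ℕ → Set (E d)) (_ : K ⊆ ⋃ n, t n) (_ : ∀ n, ediam (t n) ≤ 1),
      ∑' n, ⨆ _ : (t n).Nonempty, ediam (t n) ^ s) < ENNReal.ofReal (η / 2) := by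
    rw [h1]; exact ENNReal.ofReal_pos.mpr (by positivity)
  rw [iInf_lt_iff] at h2
  obtain ⟨t, ht⟩ := h2
  rw [iInf_lt_iff] at ht
  obtain ⟨hcov, ht⟩ := ht
  rw [iInf_lt_iff] at ht
  obtain ⟨hdiam, hsum⟩ := ht
  have hfin : ∀ n, ediam (t n) ≠ ⊤ := fun n => ne_top_of_le_ne_top ENNReal.one_ne_top (hdiam n)
  obtain ⟨D, hD⟩ : ∃ D : ℕ → ℝ, D = fun n => (ediam (t n)).toReal := ⟨_, rfl⟩
  have hD0 : ∀ n, 0 ≤ D n := fun n => by rw [hD]; exact ENNReal.toReal_nonneg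
  obtain ⟨x, hx⟩ : ∃ x : ℕ → E d, ∀ n, (t n).Nonempty → x n ∈ t n := by
    refine ⟨fun n => if hn : (t n).Nonempty then hn.some else 0, fun n hn => ?_⟩
    simp only [dif_pos hn]
    exact hn.some_mem
  obtain ⟨g, hg⟩ : ∃ g : ℕ → ℝ, g = fun n => η / 2 * (1 / 2) ^ (n + 1) := ⟨_, rfl⟩
  have hgpos : ∀ n, 0 < g n := fun n => by rw [hg]; positivity
  obtain ⟨ρ, hρ⟩ : ∃ ρ : ℕ → ℝ, ρ = fun n => (D n ^ s + g n) ^ (1 / s) := ⟨_, rfl⟩
  have hbase : ∀ n, 0 < D n ^ s + g n := fun n =>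
    add_pos_of_nonneg_of_pos (Real.rpow_nonneg (hD0 n) _) (hgpos n)
  have hρs : ∀ n, ρ n ^ s = D n ^ s + g n := by
    intro n
    rw [hρ]
    simp only
    rw [← Real.rpow_mul (hbase n).le, one_div, inv_mul_cancel₀ hs.ne', Real.rpow_one]
  have hρpos : ∀ n, 0 < ρ n := fun n => by rw [hρ]; exact Real.rpow_pos_of_pos (hbase n) _
  have hDρ : ∀ n, D n ≤ ρ n := by
    intro n
    by_contra hcon
    push Not at hcon
    have h3 := Real.rpow_lt_rpow (hρpos n).le hcon hs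
    rw [hρs] at h3
    linarith [hgpos n]
  refine ⟨x, ρ, hρpos, ?_, ?_⟩
  · intro y hy
    obtain ⟨n, hn⟩ := Set.mem_iUnion.mp (hcov hy)
    refine Set.mem_iUnion.mpr ⟨n, ?_⟩
    have h3 := edist_le_ediam_of_mem hn (hx n ⟨y, hn⟩)
    rw [mem_closedBall]
    refine le_trans ?_ (hDρ n)
    rw [hD, dist_edist]
    exact ENNReal.toReal_mono (hfin n) h3
  · have h4 : ∀ n, ENNReal.ofReal (ρ n ^ s) ≤
        (⨆ _ : (t n).Nonempty, ediam (t n) ^ s) + ENNReal.ofReal (g n) := by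
      intro n
      rw [hρs, ENNReal.ofReal_add (Real.rpow_nonneg (hD0 n) _) (hgpos n).le]
      refine add_le_add ?_ le_rfl
      rcases (t n).eq_empty_or_nonempty with hn | hn
      · have : D n = 0 := by rw [hD]; simp [hn]
        rw [this, Real.zero_rpow hs.ne', ENNReal.ofReal_zero]
        exact zero_le
      · refine le_trans (le_of_eq ?_) (le_iSup (fun _ : (t n).Nonempty => ediam (t n) ^ s) hn)
        rw [← ENNReal.ofReal_rpow_of_nonneg (hD0 n) hs.le, hD]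
        simp only
        rw [ENNReal.ofReal_toReal (hfin n)]
    refine (ENNReal.tsum_le_tsum h4).trans ?_
    rw [ENNReal.tsum_add]
    have h5 : ∑' n, ENNReal.ofReal (g n) = ENNReal.ofReal (η / 2) := by
      have hs2 : HasSum g (η / 2) := by
        have h6 := hasSum_geometric_two.mul_left (η / 4)
        have e1 : (fun n : ℕ => η / 4 * ((1 : ℝ) / 2) ^ n) = g := by
          funext n
          rw [hg]
          simp only
          rw [pow_succ]; ring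
        have e2 : η / 4 * 2 = η / 2 := by ring
        rwa [e1, e2] at h6
      rw [← ENNReal.ofReal_tsum_of_nonneg (fun n => (hgpos n).le) hs2.summable, hs2.tsum_eq]
    rw [h5]
    calc (∑' n, ⨆ _ : (t n).Nonempty, ediam (t n) ^ s) + ENNReal.ofReal (η / 2)
        ≤ ENNReal.ofReal (η / 2) + ENNReal.ofReal (η / 2) := add_le_add hsum.le le_rfl
      _ = ENNReal.ofReal η := by
          rw [← ENNReal.ofReal_add (by positivity) (by positivity)]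
          congr 1; ring

/-! ### Numerical sequences -/

/-- The weights `1 / (4 (k+1) (k+2))`. -/
noncomputable def wt (k : ℕ) : ℝ := 1 / (4 * ((k : ℝ) + 1) * ((k : ℝ) + 2))

lemma wt_pos (k : ℕ) : 0 < wt k := by unfold wt; positivity

lemma sum_wt (n : ℕ) : ∑ k ∈ Finset.range n, wt k = 1 / 4 - 1 / (4 * ((n : ℝ) + 1)) := by
  induction n with
  | zero => simp
  | succ n ih =>
    rw [Finset.sum_range_succ, ih]
    unfold wt
    push_cast
    field_simp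
    ring

lemma tsum_wt_le (c : ℝ) (hc : 0 ≤ c) :
    ∑' k, ENNReal.ofReal (c * wt k) ≤ ENNReal.ofReal (c / 4) := by
  refine ENNReal.tsum_le_of_sum_range_le fun n => ?_
  rw [← ENNReal.ofReal_sum_of_nonneg fun k _ => mul_nonneg hc (wt_pos k).le, ← Finset.mul_sum,
    sum_wt]
  refine ENNReal.ofReal_le_ofReal ?_
  have : 0 ≤ 1 / (4 * ((n : ℝ) + 1)) := by positivity
  nlinarith

/-- Pigeonhole for countable covers. -/
lemma exists_scale {X : Type*} [MeasurableSpace X] (μ : Measure X) (Q : ℕ → Set X) (c : ℝ)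
    (hc : 0 ≤ c) (S : Set X) (hS : S ⊆ ⋃ k, Q k) (hμ : ENNReal.ofReal (c / 4) < μ S) :
    ∃ k, ENNReal.ofReal (c * wt k) ≤ μ (Q k) := by
  by_contra hcon
  push Not at hcon
  have h1 : μ S ≤ ENNReal.ofReal (c / 4) :=
    (measure_mono hS).trans ((measure_iUnion_le _).trans
      ((ENNReal.tsum_le_tsum fun k => (hcon k).le).trans (tsum_wt_le c hc)))
  exact absurd h1 (not_le.mpr hμ)

lemma eventually_small {C Q γ : ℝ} (hγ : 0 < γ) :
    ∃ k₀ : ℕ, ∀ k, k₀ ≤ k → C * ((2 : ℝ)⁻¹ ^ k) ^ γ < wt k ^ Q := by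
  obtain ⟨m, hm⟩ := exists_nat_ge Q
  obtain ⟨r, hr⟩ : ∃ r : ℝ, r = (2 : ℝ)⁻¹ ^ γ := ⟨_, rfl⟩
  have hr0 : 0 < r := by rw [hr]; positivity
  have hr1 : r < 1 := by rw [hr]; exact Real.rpow_lt_one (by norm_num) (by norm_num) hγ
  have hpow : ∀ k : ℕ, ((2 : ℝ)⁻¹ ^ k) ^ γ = r ^ k := by
    intro k
    rw [hr, ← Real.rpow_natCast, ← Real.rpow_natCast, ← Real.rpow_mul (by norm_num),
      ← Real.rpow_mul (by norm_num), mul_comm]
  have hlim : Filter.Tendsto (fun k : ℕ => (C * 4 ^ m * (r ^ 2)⁻¹) *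
      (((k + 2 : ℕ) : ℝ) ^ (2 * m) * r ^ (k + 2))) Filter.atTop (nhds 0) := by
    have h1 := tendsto_pow_const_mul_const_pow_of_abs_lt_one (2 * m)
      (r := r) (by rw [abs_of_pos hr0]; exact hr1)
    have h2 := (h1.comp (Filter.tendsto_add_atTop_nat 2)).const_mul (C * 4 ^ m * (r ^ 2)⁻¹)
    rw [mul_zero] at h2
    exact h2
  have hev := (hlim.eventually (gt_mem_nhds one_pos))
  obtain ⟨k₀, hk₀⟩ := Filter.eventually_atTop.mp hev
  refine ⟨k₀, fun k hk => ?_⟩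
  have h3 := hk₀ k hk
  rw [hpow]
  have hw1 : wt k ≤ 1 := by
    unfold wt
    rw [div_le_one (by positivity)]
    nlinarith [Nat.cast_nonneg (α := ℝ) k]
  have h4 : (1 / (4 * ((k : ℝ) + 2) ^ 2)) ^ m ≤ wt k ^ Q := by
    calc (1 / (4 * ((k : ℝ) + 2) ^ 2)) ^ m ≤ wt k ^ m := by
          refine pow_le_pow_left₀ (by positivity) ?_ m
          unfold wt
          refine div_le_div_of_nonneg_left (by norm_num) (by positivity) ?_
          nlinarith [Nat.cast_nonneg (α := ℝ) k]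
      _ = wt k ^ (m : ℝ) := (Real.rpow_natCast _ _).symm
      _ ≤ wt k ^ Q := Real.rpow_le_rpow_of_exponent_ge (wt_pos k) hw1 hm
  refine lt_of_lt_of_le ?_ h4
  rw [one_div_pow, lt_div_iff₀ (by positivity)]
  have e : C * r ^ k * (4 * ((k : ℝ) + 2) ^ 2) ^ m = (C * 4 ^ m * (r ^ 2)⁻¹) *
      (((k + 2 : ℕ) : ℝ) ^ (2 * m) * r ^ (k + 2)) := by
    push_cast
    rw [mul_pow, ← pow_mul, pow_add]
    field_simp
  rw [e]
  exact h3

/-! ### The theorem -/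

/-- **Hausdorff dimension.** A density bound for tubes implies a lower bound for the Hausdorff
dimension of all sets which contain a unit segment in every direction. -/
theorem le_dimH_of_dens {d : ℕ} {b : ℝ} (hb : 0 ≤ b) (h : Dens d b) (K : Set (E d))
    (hK : ∀ e : E d, ‖e‖ = 1 → ∃ x : E d, ∀ t : ℝ, 0 ≤ t → t ≤ 1 → x + t • e ∈ K) :
    ENNReal.ofReal (b * d + 1) ≤ dimH K := by
  classical
  by_contra hcon
  push Not at hcon
  obtain ⟨s, hs1, hs2⟩ := ENNReal.lt_iff_exists_nnreal_btwn.mp hcon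
  have hs0 : 0 < (s : ℝ) := by
    have : (0 : ℝ≥0∞) < s := lt_of_le_of_lt zero_le hs1
    exact_mod_cast this
  have hs3 : (s : ℝ) < b * d + 1 := by
    have h1 : ENNReal.ofReal (s : ℝ) < ENNReal.ofReal (b * d + 1) := by
      rw [ENNReal.ofReal_coe_nnreal]; exact hs2
    exact (ENNReal.ofReal_lt_ofReal_iff (by positivity)).mp h1
  have hzero : μH[(s : ℝ)] K = 0 := hausdorffMeasure_of_dimH_lt hs1
  obtain ⟨ε, hε⟩ : ∃ ε : ℝ, ε = (b * d + 1 - s) / 2 := ⟨_, rfl⟩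
  have hε0 : 0 < ε := by rw [hε]; linarith
  obtain ⟨c, P, hc0, hdens⟩ := h ε hε0
  obtain ⟨P', hP'⟩ : ∃ P' : ℝ, P' = max P 0 := ⟨_, rfl⟩
  have hP'0 : 0 ≤ P' := by rw [hP']; exact le_max_right _ _
  have hPP' : P ≤ P' := by rw [hP']; exact le_max_left _ _
  have hom := om_pos d
  obtain ⟨κ, hκ⟩ : ∃ κ : ℝ, κ = min 1 (om d / 2 ^ (d + 2)) := ⟨_, rfl⟩
  have hκ0 : 0 < κ := by rw [hκ]; positivity
  have hκ1 : κ ≤ 1 := by rw [hκ]; exact min_le_left _ _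
  have hκ2 : κ ≤ om d / 2 ^ (d + 2) := by rw [hκ]; exact min_le_right _ _
  obtain ⟨A, hA⟩ : ∃ A : ℝ, A = 2 * ((d : ℝ) + 1) ^ 2 := ⟨_, rfl⟩
  have hA0 : 0 < A := by rw [hA]; positivity
  obtain ⟨c1, hc1⟩ : ∃ c1 : ℝ, c1 = 2 / (2 ^ d * A ^ d) := ⟨_, rfl⟩
  have hc1pos : 0 < c1 := by rw [hc1]; positivity
  obtain ⟨C2, hC2⟩ : ∃ C2 : ℝ, C2 = 2 ^ (d + 1) * om d / (c * κ ^ P' * c1 ^ b) := ⟨_, rfl⟩
  have hC2pos : 0 < C2 := by rw [hC2]; positivity
  obtain ⟨k₁, hk₁⟩ := eventually_small (C := C2) (Q := P' + b) hε0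
  obtain ⟨k₀, hk₀⟩ : ∃ k₀ : ℕ, k₀ = max k₁ 1 := ⟨_, rfl⟩
  have hk₀1 : 1 ≤ k₀ := by rw [hk₀]; exact le_max_right _ _
  have hk₀k₁ : k₁ ≤ k₀ := by rw [hk₀]; exact le_max_left _ _
  have hhalf : (0 : ℝ) < 2⁻¹ := by norm_num
  -- the cover
  obtain ⟨η, hη⟩ : ∃ η : ℝ, η = ((2 : ℝ)⁻¹ ^ k₀) ^ (s : ℝ) := ⟨_, rfl⟩
  have hη0 : 0 < η := by rw [hη]; positivity
  obtain ⟨x, ρ, hρ0, hcov, hsum⟩ := cover_of_zero K hs0 hzero hη0
  have hρη : ∀ n, ρ n ≤ (2 : ℝ)⁻¹ ^ k₀ := by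
    intro n
    have h1 : ENNReal.ofReal (ρ n ^ (s : ℝ)) ≤ ENNReal.ofReal η :=
      (ENNReal.le_tsum n).trans hsum
    have h2 := (ENNReal.ofReal_le_ofReal_iff hη0.le).mp h1
    rw [hη] at h2
    exact (Real.rpow_le_rpow_iff (hρ0 n).le (by positivity) hs0).mp h2
  have hρ1 : ∀ n, ρ n ≤ 1 := fun n =>
    (hρη n).trans (pow_le_one₀ (by norm_num) (by norm_num))
  have hk : ∀ n, ∃ k : ℕ, (2 : ℝ)⁻¹ ^ (k + 1) < ρ n ∧ ρ n ≤ (2 : ℝ)⁻¹ ^ k := fun n =>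
    exists_nat_pow_near_of_lt_one (hρ0 n) (hρ1 n) (by norm_num) (by norm_num)
  choose kk hkk1 hkk2 using hk
  have hkk0 : ∀ n, k₀ ≤ kk n := by
    intro n
    by_contra hlt
    push Not at hlt
    have h1 : (2 : ℝ)⁻¹ ^ k₀ ≤ (2 : ℝ)⁻¹ ^ (kk n + 1) :=
      pow_le_pow_of_le_one (by norm_num) (by norm_num) hlt
    linarith [hρη n, hkk1 n]
  -- segments
  choose! p hp using hK
  obtain ⟨Qs, hQs⟩ : ∃ Qs : (Fin d → ℝ) → ℕ → Set ℝ, Qs = fun w k =>
      {t | (1 / 4 ≤ t ∧ t ≤ 3 / 4) ∧ ∃ n, kk n = k ∧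
        dist (p (edir w) + t • edir w) (x n) ≤ (2 : ℝ)⁻¹ ^ k} := ⟨_, rfl⟩
  have hQmem : ∀ w k t, t ∈ Qs w k ↔ ((1 / 4 ≤ t ∧ t ≤ 3 / 4) ∧ ∃ n, kk n = k ∧
        dist (p (edir w) + t • edir w) (x n) ≤ (2 : ℝ)⁻¹ ^ k) := fun w k t => by rw [hQs]; rfl
  have hscale1 : ∀ w : Fin d → ℝ, ∃ k, ENNReal.ofReal (1 * wt k) ≤ volume (Qs w k) := by
    intro w
    refine exists_scale volume (Qs w) 1 zero_le_one (Set.Icc (1 / 4) (3 / 4)) ?_ ?_
    · intro t ht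
      have h1 := hp (edir w) (norm_edir w) t (by linarith [ht.1]) (by linarith [ht.2])
      obtain ⟨n, hn⟩ := Set.mem_iUnion.mp (hcov h1)
      refine Set.mem_iUnion.mpr ⟨kk n, (hQmem _ _ _).mpr ⟨ht, n, rfl, ?_⟩⟩
      exact (mem_closedBall.mp hn).trans (hkk2 n)
    · rw [Real.volume_Icc]
      exact (ENNReal.ofReal_lt_ofReal_iff (by norm_num)).mpr (by norm_num)
  obtain ⟨Om, hOm⟩ : ∃ Om : ℕ → Set (Fin d → ℝ), Om = fun k =>
      {w | (∀ i, 0 ≤ w i ∧ w i ≤ 1) ∧ ENNReal.ofReal (1 * wt k) ≤ volume (Qs w k)} := ⟨_, rfl⟩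
  have hOmmem : ∀ k w, w ∈ Om k ↔ ((∀ i, 0 ≤ w i ∧ w i ≤ 1) ∧
      ENNReal.ofReal (1 * wt k) ≤ volume (Qs w k)) := fun k w => by rw [hOm]; rfl
  obtain ⟨k, hkΩ⟩ : ∃ k, ENNReal.ofReal (2 * wt k) ≤ volume (Om k) := by
    refine exists_scale volume Om 2 (by norm_num) (Set.pi univ fun _ => Set.Icc 0 1) ?_ ?_
    · intro w hw
      obtain ⟨k, hk⟩ := hscale1 w
      exact Set.mem_iUnion.mpr ⟨k, (hOmmem _ _).mpr ⟨fun i => hw i (Set.mem_univ i), hk⟩⟩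
    · rw [volume_pi_pi]
      simp only [Real.volume_Icc, Finset.prod_const]
      norm_num
  have hwtk := wt_pos k
  obtain ⟨δ, hδ⟩ : ∃ δ : ℝ, δ = (2 : ℝ)⁻¹ ^ k := ⟨_, rfl⟩
  have hδ0 : 0 < δ := by rw [hδ]; positivity
  -- the separated directions
  obtain ⟨Z, w, hw1, hw2, hw3⟩ := select (Om k) (fun w hw => ((hOmmem _ _).mp hw).1)
    (r := A * δ) (by positivity) hkΩ
  have hZpos : 0 < Z.card := by
    by_contra hcon2
    have h1 : Z.card = 0 := by omega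
    rw [h1, Nat.cast_zero, mul_zero] at hw3
    linarith
  obtain ⟨z₀, hz₀⟩ := Finset.card_pos.mp hZpos
  have hk0k : k₀ ≤ k := by
    have h1 := ((hOmmem _ _).mp (hw1 z₀ hz₀)).2
    have h2 : 0 < volume (Qs (w z₀) k) :=
      lt_of_lt_of_le (ENNReal.ofReal_pos.mpr (by positivity)) h1
    obtain ⟨t, ht⟩ := nonempty_of_measure_ne_zero h2.ne'
    obtain ⟨-, n, hn, -⟩ := (hQmem _ _ _).mp ht
    rw [← hn]; exact hkk0 n
  have hδ2 : δ ≤ 1 / 2 := by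
    rw [hδ]
    calc (2 : ℝ)⁻¹ ^ k ≤ (2 : ℝ)⁻¹ ^ 1 :=
          pow_le_pow_of_le_one (by norm_num) (by norm_num) (hk₀1.trans hk0k)
      _ = 1 / 2 := by norm_num
  -- the balls of this scale
  have hfin := ENNReal.finset_card_const_le_le_of_tsum_le (a := fun n =>
    ENNReal.ofReal (ρ n ^ (s : ℝ))) ENNReal.ofReal_ne_top hsum
    (ε := ENNReal.ofReal (((2 : ℝ)⁻¹ ^ (k + 1)) ^ (s : ℝ)))
    (ENNReal.ofReal_pos.mpr (by positivity)).ne'
  obtain ⟨hfin1, hfin2⟩ := hfin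
  obtain ⟨F, hF⟩ : ∃ F, F = hfin1.toFinset := ⟨_, rfl⟩
  rw [← hF] at hfin2
  have hFmem : ∀ n, kk n = k → n ∈ F := by
    intro n hn
    rw [hF, Set.Finite.mem_toFinset]
    refine ENNReal.ofReal_le_ofReal (Real.rpow_le_rpow (by positivity) ?_ hs0.le)
    rw [← hn]; exact (hkk1 n).le
  have hFcard : (F.card : ℝ) ≤ δ ^ (-(s : ℝ)) := by
    have h1 : (F.card : ℝ≥0∞) ≤ ENNReal.ofReal (η / ((2 : ℝ)⁻¹ ^ (k + 1)) ^ (s : ℝ)) := by
      rw [ENNReal.ofReal_div_of_pos (by positivity)]; exact hfin2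
    have h2 : (F.card : ℝ) ≤ η / ((2 : ℝ)⁻¹ ^ (k + 1)) ^ (s : ℝ) := by
      rw [← ENNReal.ofReal_natCast] at h1
      exact (ENNReal.ofReal_le_ofReal_iff (by positivity)).mp h1
    refine h2.trans ?_
    rw [hη, ← Real.div_rpow (by positivity) (by positivity), hδ, Real.rpow_neg (by positivity),
      ← Real.inv_rpow (by positivity)]
    refine Real.rpow_le_rpow (by positivity) ?_ hs0.le
    rw [div_le_iff₀ (by positivity)]
    have e1 : ((2 : ℝ)⁻¹ ^ k)⁻¹ * (2 : ℝ)⁻¹ ^ (k + 1) = 2⁻¹ ^ 1 := by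
      rw [pow_succ]; field_simp
    rw [e1]
    exact pow_le_pow_of_le_one (by norm_num) (by norm_num) hk₀1
  -- apply the density bound
  obtain ⟨X, hX⟩ : ∃ X : Set (E d), X = ⋃ n ∈ F, closedBall (x n) (2 * δ) := ⟨_, rfl⟩
  have hXm : MeasurableSet X := by
    rw [hX]; exact Finset.measurableSet_biUnion _ fun _ _ => isClosed_closedBall.measurableSet
  have hfam : Fam δ (fun z => edir (w z)) Z := by
    refine ⟨fun z _ => norm_edir _, fun z hz z' hz' hne => ?_⟩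
    obtain ⟨i, hi⟩ := hw2 z hz z' hz' hne
    have h1 := edir_sep (w z) (w z') ((hOmmem _ _).mp (hw1 z hz)).1
      ((hOmmem _ _).mp (hw1 z' hz')).1 i
    rw [← hA] at h1
    exact le_of_mul_le_mul_left (hi.trans h1) hA0
  have hmass : ∀ z ∈ Z, ENNReal.ofReal (κ * wt k * δ ^ d) ≤
      volume (X ∩ tube δ (p (edir (w z)) + (1 / 2 : ℝ) • edir (w z)) (edir (w z))) := by
    intro z hz
    have h1 := ((hOmmem _ _).mp (hw1 z hz)).2
    rw [one_mul] at h1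
    have h2 := tube_mass (p := p (edir (w z))) (norm_edir (w z)) hδ0 hδ2 F x (Qs (w z) k)
      (by
        intro t ht
        obtain ⟨ht1, n, hn, ht2⟩ := (hQmem _ _ _).mp ht
        exact ⟨ht1, n, hFmem n hn, hδ ▸ ht2⟩) h1
    rw [← hX] at h2
    refine le_trans (ENNReal.ofReal_le_ofReal ?_) h2
    have : κ * wt k ≤ wt k * (om d / 2 ^ (d + 2)) := by
      rw [mul_comm]; exact mul_le_mul_of_nonneg_left hκ2 hwtk.le
    exact mul_le_mul_of_nonneg_right this (by positivity)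
  have hwt1 : wt k ≤ 1 := by
    unfold wt
    rw [div_le_one (by positivity)]
    nlinarith [Nat.cast_nonneg (α := ℝ) k]
  have hlam1 : κ * wt k ≤ 1 := mul_le_one₀ hκ1 hwtk.le hwt1
  have hmain := hdens δ hδ0 (by linarith) (Fin d → ℤ) Z
    (fun z => p (edir (w z)) + (1 / 2 : ℝ) • edir (w z)) (fun z => edir (w z)) hfam X hXm
    (κ * wt k) (by positivity) hlam1 hmass
  -- the upper bound
  have hupper : volume X ≤ ENNReal.ofReal (δ ^ (-(s : ℝ)) * ((2 * δ) ^ (d + 1) * om d)) := by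
    rw [hX]
    refine (measure_biUnion_finset_le _ _).trans ?_
    have h1 : ∀ n ∈ F, volume (closedBall (x n) (2 * δ)) =
        ENNReal.ofReal ((2 * δ) ^ (d + 1) * om d) := fun n _ =>
      volume_closedBall_eq _ (by positivity)
    rw [Finset.sum_congr rfl h1, Finset.sum_const, nsmul_eq_mul, ← ENNReal.ofReal_natCast,
      ← ENNReal.ofReal_mul (by positivity)]
    exact ENNReal.ofReal_le_ofReal (mul_le_mul_of_nonneg_right hFcard (by positivity))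
  have hfinal := (ENNReal.ofReal_le_ofReal_iff (by positivity)).mp (hmain.trans hupper)
  -- the contradiction
  have hZcard : c1 * wt k * δ ^ (-(d : ℝ)) ≤ Z.card := by
    rw [mul_pow] at hw3
    rw [Real.rpow_neg hδ0.le, Real.rpow_natCast, ← div_eq_mul_inv, div_le_iff₀ (by positivity),
      hc1, div_mul_eq_mul_div, div_le_iff₀ (by positivity)]
    linarith
  have hlow : c * δ ^ ε * ((κ * wt k) ^ P' * δ ^ d * (c1 * wt k * δ ^ (-(d : ℝ))) ^ b) ≤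
      c * δ ^ ε * ((κ * wt k) ^ P * δ ^ d * (Z.card : ℝ) ^ b) := by
    have h1 : (κ * wt k) ^ P' ≤ (κ * wt k) ^ P :=
      Real.rpow_le_rpow_of_exponent_ge (by positivity) hlam1 hPP'
    have h2 : (c1 * wt k * δ ^ (-(d : ℝ))) ^ b ≤ (Z.card : ℝ) ^ b :=
      Real.rpow_le_rpow (by positivity) hZcard hb
    gcongr
  have hcomb := hlow.trans hfinal
  have hkey := hk₁ k (hk₀k₁.trans hk0k)
  rw [← hδ] at hkey
  -- rewrite everything as powers
  have e1 : c * δ ^ ε * ((κ * wt k) ^ P' * δ ^ d * (c1 * wt k * δ ^ (-(d : ℝ))) ^ b) =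
      (c * κ ^ P' * c1 ^ b) * (wt k ^ (P' + b)) * (δ ^ ε * (δ ^ (d : ℝ) * δ ^ (-(d : ℝ) * b))) := by
    rw [Real.mul_rpow hκ0.le hwtk.le, Real.mul_rpow (by positivity) (by positivity),
      Real.mul_rpow hc1pos.le hwtk.le, ← Real.rpow_mul hδ0.le, Real.rpow_add hwtk,
      Real.rpow_natCast]
    ring
  have e2 : δ ^ (-(s : ℝ)) * ((2 * δ) ^ (d + 1) * om d) =
      (2 ^ (d + 1) * om d) * (δ ^ (-(s : ℝ)) * δ ^ ((d : ℝ) + 1)) := by
    rw [mul_pow]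
    have : δ ^ ((d : ℝ) + 1) = δ ^ (d + 1) := by
      rw [← Real.rpow_natCast δ (d + 1)]; push_cast; rfl
    rw [this]; ring
  have e3 : δ ^ (-(s : ℝ)) * δ ^ ((d : ℝ) + 1) =
      δ ^ ε * (δ ^ (d : ℝ) * δ ^ (-(d : ℝ) * b)) * δ ^ ε := by
    rw [← Real.rpow_add hδ0, ← Real.rpow_add hδ0, ← Real.rpow_add hδ0, ← Real.rpow_add hδ0]
    congr 1
    rw [hε]; ring
  rw [e1, e2, e3] at hcomb
  have hpos : 0 < δ ^ ε * (δ ^ (d : ℝ) * δ ^ (-(d : ℝ) * b)) := by positivity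
  have h5 : (c * κ ^ P' * c1 ^ b) * (wt k ^ (P' + b)) ≤ (2 ^ (d + 1) * om d) * δ ^ ε := by
    have h6 : (c * κ ^ P' * c1 ^ b) * (wt k ^ (P' + b)) *
        (δ ^ ε * (δ ^ (d : ℝ) * δ ^ (-(d : ℝ) * b))) ≤ (2 ^ (d + 1) * om d) * δ ^ ε *
        (δ ^ ε * (δ ^ (d : ℝ) * δ ^ (-(d : ℝ) * b))) := by
      refine hcomb.trans (le_of_eq ?_)
      ring
    exact le_of_mul_le_mul_right h6 hpos
  have h7 : wt k ^ (P' + b) ≤ C2 * δ ^ ε := by
    rw [hC2, div_mul_eq_mul_div, le_div_iff₀ (by positivity)]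
    linarith
  exact absurd hkey (not_lt.mpr h7)

end Pool.Agent.H55.HDim
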