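import Pool.Agent.H55.Dense.HDim
import Pool.Agent.H53.Dense.Cel

/-!
# The Hausdorff dimension corollary against `RestrictedP` and `Restricted`
-/

set_option autoImplicit false

namespace Pool.Agent.H55.HDim

open Pool.Agent.H53.Kak Pool.Agent.H53.Dns Pool.Agent.H32.Dense

lemma dens_of_restrictedP {d : ℕ} {a P : ℝ} (h : RestrictedP d a P) : Dens d (1 / a) := by
  intro ε hε
  obtain ⟨c, hc, hall⟩ := h ε hε
  exact ⟨c, P, hc, hall⟩

theorem dimH_of_restrictedP {d : ℕ} {a P : ℝ} (ha : 0 ≤ a) (h : RestrictedP d a P)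
    (K : Set (E d)) (hK : ∀ e : E d, ‖e‖ = 1 → ∃ x : E d, ∀ t : ℝ, 0 ≤ t → t ≤ 1 →
      x + t • e ∈ K) :
    ENNReal.ofReal ((d : ℝ) / a + 1) ≤ dimH K := by
  have h1 := le_dimH_of_dens (b := 1 / a) (by positivity) (dens_of_restrictedP h) K hK
  have e1 : (1 / a : ℝ) * d + 1 = d / a + 1 := by ring
  rwa [e1] at h1

theorem dimH_of_restricted {d : ℕ} {a : ℝ} (ha : 0 ≤ a) (h : Restricted d a)
    (K : Set (E d)) (hK : ∀ e : E d, ‖e‖ = 1 → ∃ x : E d, ∀ t : ℝ, 0 ≤ t → t ≤ 1 →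
      x + t • e ∈ K) :
    ENNReal.ofReal ((d : ℝ) / a + 1) ≤ dimH K :=
  dimH_of_restrictedP (P := 1 + d / a) ha h K hK

/-- if there is a power `P` for every `d` -/
theorem dimH_of_exists_restrictedP {d : ℕ} {a : ℝ} (ha : 0 ≤ a)
    (h : ∃ P, RestrictedP d a P)
    (K : Set (E d)) (hK : ∀ e : E d, ‖e‖ = 1 → ∃ x : E d, ∀ t : ℝ, 0 ≤ t → t ≤ 1 →
      x + t • e ∈ K) :
    ENNReal.ofReal ((d : ℝ) / a + 1) ≤ dimH K := by
  obtain ⟨P, hP⟩ := h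
  exact dimH_of_restrictedP ha hP K hK

end Pool.Agent.H55.HDim
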